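import Pool.Agent.VS.IntLin
/-!
# Groups with few conjugacy classes of bounded translation number
-/
namespace Pool.Agent.VH
open Pool.Agent.SLX Pool.Agent.VN

/-- For some subadditive length function on the group and every `T` there are only finitely many
conjugacy classes of elements of translation number at most `T`. -/
def FCl (G : Type) [Group G] : Prop :=
  ∃ (l : G → ℕ) (κ : ℕ), l 1 = 0 ∧ (∀ g h, l (g * h) ≤ l g + l h) ∧ (∀ g, l g⁻¹ ≤ κ * l g) ∧
    ∀ T : ℕ, ∃ S : Set G, S.Finite ∧ ∀ w : G, (∃ c : ℕ, ∀ n : ℕ, l (w ^ n) ≤ T * n + c) →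
      ∃ x : G, x⁻¹ * w * x ∈ S

/-- Groups of finite asymptotic dimension with a finite complete ShortLex system. -/
theorem fcl_of_system {G : Type} [Group G] (h : HasSystem G) {D : ℕ} (hD : VNP.AsdimLE G D) :
    FCl G := VS.data_of_system h hD

/-- The property passes to retracts. -/
theorem fcl_retract {G H : Type} [Group G] [Group H] (j : H →* G) (ρ : G →* H)
    (hρ : ∀ h, ρ (j h) = h) (h : FCl G) : FCl H := by
  obtain ⟨l, κ, h1, h2, h3, h4⟩ := h
  refine ⟨fun x => l (j x), κ, by show l (j 1) = 0; rw [map_one, h1],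
    fun x y => by show l (j (x * y)) ≤ l (j x) + l (j y); rw [map_mul]; exact h2 _ _,
    fun x => by show l (j x⁻¹) ≤ κ * l (j x); rw [map_inv]; exact h3 _, fun T => ?_⟩
  obtain ⟨S, hS, hS'⟩ := h4 T
  refine ⟨ρ '' S, hS.image _, ?_⟩
  rintro w ⟨c, hc⟩
  obtain ⟨x, hx⟩ := hS' (j w) ⟨c, fun n => by rw [← map_pow]; exact hc n⟩
  exact ⟨ρ x, _, hx, by rw [map_mul, map_mul, map_inv, hρ]⟩

/-- The property is invariant under isomorphism. -/
theorem fcl_equiv {G H : Type} [Group G] [Group H] (e : G ≃* H) (h : FCl G) : FCl H :=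
  fcl_retract e.symm.toMonoidHom e.toMonoidHom (fun x => e.apply_symm_apply x) h

/-- The property passes to subgroups of finite index. -/
theorem fcl_fi {G : Type} [Group G] (H : Subgroup G) [H.FiniteIndex] (h : FCl G) : FCl H := by
  classical
  obtain ⟨l, κ, h1, h2, h3, h4⟩ := h
  refine ⟨fun x => l (x : G), κ, h1, fun x y => h2 _ _, fun x => h3 _, fun T => ?_⟩
  obtain ⟨S, hS, hS'⟩ := h4 T
  -- representatives of the cosets
  have hfin : Finite (G ⧸ H) := inferInstance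
  set R : Set G := Set.range (fun q : G ⧸ H => q.out) with hR
  have hRf : R.Finite := Set.finite_range _
  have hf : (((fun p : G × G => p.1⁻¹ * p.2 * p.1) '' (R ×ˢ S))).Finite := (hRf.prod hS).image _
  refine ⟨Subtype.val ⁻¹' ((fun p : G × G => p.1⁻¹ * p.2 * p.1) '' (R ×ˢ S)),
    Set.Finite.preimage (Subtype.coe_injective.injOn) hf, ?_⟩
  rintro w ⟨c, hc⟩
  obtain ⟨x, hx⟩ := hS' (w : G) ⟨c, fun n => hc n⟩
  -- `x⁻¹ = r h⁻¹` with `h` in `H`
  set r : G := (QuotientGroup.mk x⁻¹ : G ⧸ H).out with hr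
  have h5 : r⁻¹ * x⁻¹ ∈ H := by
    rw [← QuotientGroup.eq, hr, QuotientGroup.out_eq']
  refine ⟨⟨(r⁻¹ * x⁻¹)⁻¹, H.inv_mem h5⟩, (r, x⁻¹ * w * x), ⟨⟨_, rfl⟩, hx⟩, ?_⟩
  show r⁻¹ * (x⁻¹ * w * x) * r = ((r⁻¹ * x⁻¹)⁻¹)⁻¹ * (w : G) * (r⁻¹ * x⁻¹)⁻¹
  group

theorem q1_pow {G : Type} [Group G] {a b z : G} (hz : z = a⁻¹ * b⁻¹ * a * b)
    (ha : a * z = z * a) (hb : b * z = z * b) (n m : ℕ) :
    a ^ n * b ^ m = b ^ m * a ^ n * z ^ (n * m) := by
  have h0 : a * b = b * a * z := by rw [hz]; group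
  have hza : Commute z a := ha.symm
  have hzb : Commute z b := hb.symm
  have h1 : ∀ m : ℕ, a * b ^ m = b ^ m * a * z ^ m := by
    intro m
    induction m with
    | zero => simp
    | succ m ih =>
      calc a * b ^ (m + 1) = (a * b ^ m) * b := by rw [pow_succ, mul_assoc]
        _ = b ^ m * a * (z ^ m * b) := by rw [ih, mul_assoc]
        _ = b ^ m * a * (b * z ^ m) := by rw [(hzb.pow_left m).eq]
        _ = b ^ m * (a * b) * z ^ m := by simp only [mul_assoc]
        _ = b ^ m * (b * a * z) * z ^ m := by rw [h0]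
        _ = b ^ (m + 1) * a * z ^ (m + 1) := by
          rw [pow_succ b m, pow_succ' z m]; simp only [mul_assoc]
  induction n with
  | zero => simp
  | succ n ih =>
    calc a ^ (n + 1) * b ^ m = a * (a ^ n * b ^ m) := by rw [pow_succ', mul_assoc]
      _ = (a * b ^ m) * (a ^ n * z ^ (n * m)) := by rw [ih]; simp only [mul_assoc]
      _ = b ^ m * a * (z ^ m * a ^ n) * z ^ (n * m) := by rw [h1]; simp only [mul_assoc]
      _ = b ^ m * a * (a ^ n * z ^ m) * z ^ (n * m) := by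
        rw [((hza.pow_left m).pow_right n).eq]
      _ = b ^ m * a ^ (n + 1) * z ^ ((n + 1) * m) := by
        have : (n + 1) * m = m + n * m := by ring
        rw [this, pow_add z, pow_succ' a n]; simp only [mul_assoc]

section
variable {G : Type} [Group G] (l : G → ℕ) (κ : ℕ) (hone : l 1 = 0)
  (hmul : ∀ g h, l (g * h) ≤ l g + l h) (hinv : ∀ g, l g⁻¹ ≤ κ * l g)
  (hcl : ∀ T : ℕ, ∃ S : Set G, S.Finite ∧ ∀ w : G, (∃ c : ℕ, ∀ n : ℕ, l (w ^ n) ≤ T * n + c) →
      ∃ x : G, x⁻¹ * w * x ∈ S)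

include hone hmul in
theorem fc_lpow (g : G) (k : ℕ) : l (g ^ k) ≤ k * l g := by
  induction k with
  | zero => simp [hone]
  | succ k ih =>
    rw [pow_succ]
    have := hmul (g ^ k) g
    have h : (k + 1) * l g = k * l g + l g := by ring
    omega

include hone hmul hinv in
theorem fc_tau {a b z : G} (hz : z = a⁻¹ * b⁻¹ * a * b)
    (ha : a * z = z * a) (hb : b * z = z * b) (m : ℕ) :
    ∃ c : ℕ, ∀ n : ℕ, l ((z ^ m) ^ n) ≤ 1 * n + c := by
  set E : ℕ := (κ + 1) * (l a + l b) with hE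
  have h1 : ∀ n : ℕ, l (z ^ (n * n)) ≤ n * E := by
    intro n
    have h2 : z ^ (n * n) = (a ^ n)⁻¹ * (b ^ n)⁻¹ * (a ^ n * b ^ n) := by
      rw [q1_pow hz ha hb n n]; group
    have h3 := hmul ((a ^ n)⁻¹ * (b ^ n)⁻¹) (a ^ n * b ^ n)
    have h4 := hmul (a ^ n)⁻¹ (b ^ n)⁻¹
    have h5 := hmul (a ^ n) (b ^ n)
    have h6 := hinv (a ^ n)
    have h7 := hinv (b ^ n)
    have h8 := fc_lpow l hone hmul a n
    have h9 := fc_lpow l hone hmul b n
    have h10 : κ * l (a ^ n) ≤ κ * (n * l a) := Nat.mul_le_mul_left _ h8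
    have h11 : κ * l (b ^ n) ≤ κ * (n * l b) := Nat.mul_le_mul_left _ h9
    have h12 : n * E = κ * (n * l a) + κ * (n * l b) + (n * l a + n * l b) := by
      rw [hE]; ring
    rw [h2]
    omega
  -- all powers
  set E2 : ℕ := E + 2 * l z with hE2
  have h2 : ∀ N q : ℕ, q * q ≤ N → N ≤ q * q + 2 * q → l (z ^ N) ≤ q * E2 := by
    intro N q h3 h4
    obtain ⟨r, rfl⟩ := Nat.exists_eq_add_of_le h3
    rw [pow_add]
    have h5 := hmul (z ^ (q * q)) (z ^ r)
    have h6 := h1 q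
    have h7 := fc_lpow l hone hmul z r
    have h8 : r * l z ≤ 2 * q * l z := Nat.mul_le_mul_right _ (by omega)
    have h9 : q * E2 = q * E + 2 * q * l z := by rw [hE2]; ring
    omega
  have h3 : ∀ N : ℕ, ∃ q : ℕ, q * q ≤ N ∧ N ≤ q * q + 2 * q := by
    intro N
    refine ⟨Nat.sqrt N, Nat.sqrt_le N, ?_⟩
    exact Nat.sqrt_le_add N |>.trans (by omega)
  -- `q * E2 ≤ n + c` if `q * q ≤ m * n`
  refine ⟨m * E2 * E2 + E2 * E2 , fun n => ?_⟩
  obtain ⟨q, hq1, hq2⟩ := h3 (m * n)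
  have h4 := h2 (m * n) q hq1 hq2
  rw [← pow_mul]
  refine h4.trans ?_
  by_cases hq : q ≤ m * E2
  · have h5 : q * E2 ≤ m * E2 * E2 := Nat.mul_le_mul_right _ hq
    omega
  · push Not at hq
    have hm : 0 < m := by
      rcases Nat.eq_zero_or_pos m with rfl | h
      · have h5 : q * q = 0 := by
          have := hq1
          rw [Nat.zero_mul] at this
          omega
        have h6 : q = 0 := by
          rcases Nat.mul_eq_zero.1 h5 with h | h <;> exact h
        omega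
      · exact h
    -- `m * (q * E2) ≤ q * q ≤ m * n`
    have h5 : m * (q * E2) ≤ m * n := by
      refine le_trans ?_ hq1
      have : m * (q * E2) = q * (m * E2) := by ring
      rw [this]
      exact Nat.mul_le_mul_left _ hq.le
    have h6 : q * E2 ≤ n := Nat.le_of_mul_le_mul_left h5 hm
    omega

include hone hmul hinv hcl in
/-- A commutator of two elements that commute with it has finite order if it has only finitely
many conjugates. -/
theorem fc_torsion' (a b z : G) (hz : z = a⁻¹ * b⁻¹ * a * b) (ha : a * z = z * a)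
    (hb : b * z = z * b) (hfc : (Set.range (fun g : G => g⁻¹ * z * g)).Finite) :
    ∃ k : ℕ, 0 < k ∧ z ^ k = 1 := by
  obtain ⟨S, hS, hS'⟩ := hcl 1
  have h1 : ∀ m : ℕ, ∃ x : G, x⁻¹ * z ^ m * x ∈ S := fun m =>
    hS' _ (fc_tau l κ hone hmul hinv hz ha hb m)
  choose x hx using h1
  have hcp : ∀ (g : G) (m : ℕ), g⁻¹ * z ^ m * g = (g⁻¹ * z * g) ^ m := by
    intro g m
    have := conj_pow (i := m) (a := g⁻¹) (b := z)
    rw [inv_inv] at this
    exact this.symm
  have hfin : (Set.range (fun g : G => g⁻¹ * z * g) ×ˢ S).Finite := hfc.prod hS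
  have hmaps : ∀ m : ℕ, ((x m)⁻¹ * z * x m, ((x m)⁻¹ * z * x m) ^ m) ∈
      (Set.range (fun g : G => g⁻¹ * z * g) ×ˢ S) := by
    intro m
    refine Set.mk_mem_prod ⟨x m, rfl⟩ ?_
    have := hx m
    rw [hcp] at this
    exact this
  obtain ⟨m, -, m', -, hne, heq⟩ := Set.infinite_univ.exists_ne_map_eq_of_mapsTo
    (f := fun m : ℕ => ((x m)⁻¹ * z * x m, ((x m)⁻¹ * z * x m) ^ m))
    (fun m _ => hmaps m) hfin
  have key : ∀ m m' : ℕ, m < m' →
      ((x m)⁻¹ * z * x m, ((x m)⁻¹ * z * x m) ^ m) =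
      ((x m')⁻¹ * z * x m', ((x m')⁻¹ * z * x m') ^ m') → ∃ k : ℕ, 0 < k ∧ z ^ k = 1 := by
    intro m m' hlt he
    have e1 : (x m)⁻¹ * z * x m = (x m')⁻¹ * z * x m' := congrArg Prod.fst he
    have e2 : ((x m)⁻¹ * z * x m) ^ m = ((x m')⁻¹ * z * x m') ^ m' := congrArg Prod.snd he
    rw [← e1] at e2
    refine ⟨m' - m, Nat.sub_pos_of_lt hlt, ?_⟩
    have e3 : ((x m)⁻¹ * z * x m) ^ (m' - m) = 1 := by
      have h : m' = m + (m' - m) := by omega
      rw [h, pow_add] at e2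
      have h2 : ((x m)⁻¹ * z * x m) ^ m * ((x m)⁻¹ * z * x m) ^ (m' - m) =
          ((x m)⁻¹ * z * x m) ^ m * 1 := by rw [mul_one]; exact e2.symm
      exact mul_left_cancel h2
    rw [← hcp] at e3
    have e4 : z ^ (m' - m) = x m * ((x m)⁻¹ * z ^ (m' - m) * x m) * (x m)⁻¹ := by group
    rw [e4, e3]; group
  rcases lt_or_gt_of_ne hne with h | h
  · exact key m m' h heq
  · exact key m' m h heq.symm

end

end Pool.Agent.VH
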