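import Pool.Agent.VH.FC3
import Pool.Agent.SLA.VProd
import Pool.Agent.SLA.PiA
/-!
# Extensions of virtually solvable groups of finite rank by virtual products of free groups
-/
namespace Pool.Agent.VH
open Subgroup Pool.Agent.SLX

/-- Virtually solvable of finite Pruefer rank by virtually a direct product of free groups. -/
theorem fcl_vprod {G : Type} [Group G] [Group.FG G] (h : FCl G) (N : Subgroup G) [N.Normal]
    (S : Subgroup G) (hSN : S ≤ N) (hSfi : S.relIndex N ≠ 0) (hSs : Group.IsSolvable S) (r : ℕ)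
    (hr : ∀ K : Subgroup G, K ≤ S → K.FG → ∃ T : Finset G, T.card ≤ r ∧
      Subgroup.closure (T : Set G) = K)
    {κ : Type} [Finite κ] (X : κ → Type) [∀ i, Finite (X i)] (Q0 : Subgroup (G ⧸ N))
    [Q0.FiniteIndex] (e : Q0 ≃* ∀ i, FreeGroup (X i)) :
    ∃ (m : ℕ) (n : κ → ℕ) (H : Subgroup G), H.FiniteIndex ∧
      Nonempty (H ≃* (Fin m → Multiplicative ℤ) × ∀ i, FreeGroup (Fin (n i))) := by
  obtain ⟨_, A, hAn, hAN, hAfi, hAc, hAfg, hAtf, hAC⟩ := fcl_normal h N S hSN hSfi hSs r hr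
  obtain ⟨l, k, h1, h2, h3, h4⟩ := h
  obtain ⟨n, H, hH, ⟨f⟩⟩ := SLA.vprod_split N A hAN hAc hAfg hAtf hAfi hAC (by
    intro x y z hz hx hy hfc
    refine isOfFinOrder_iff_pow_eq_one.2
      (fc_torsion' l k h1 h2 h3 h4 x⁻¹ y⁻¹ z ?_ ?_ ?_ hfc)
    · rw [hz, inv_inv, inv_inv]
    · exact ((show Commute x z from hx).inv_left).eq
    · exact ((show Commute y z from hy).inv_left).eq) X Q0 e
  have hAfg' : Group.FG A := (Group.fg_iff_subgroup_fg A).2 hAfg
  obtain ⟨m, B, hB, ⟨f2⟩⟩ := VS.free_in_abelian A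
    (fun a b => Subtype.ext (hAc a a.2 b b.2)) hAfg'
  obtain ⟨H', hH', hf⟩ := VS.prod_fi H f B f2
  exact ⟨m, n, H', hH', hf⟩

/-- Virtually solvable of finite Pruefer rank by virtually a direct product of free groups. -/
theorem fcl_vprod_automatic {G : Type} [Group G] [Group.FG G] (h : FCl G) (N : Subgroup G)
    [N.Normal] (S : Subgroup G) (hSN : S ≤ N) (hSfi : S.relIndex N ≠ 0)
    (hSs : Group.IsSolvable S) (r : ℕ)
    (hr : ∀ K : Subgroup G, K ≤ S → K.FG → ∃ T : Finset G, T.card ≤ r ∧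
      Subgroup.closure (T : Set G) = K)
    {κ : Type} [Finite κ] (X : κ → Type) [∀ i, Finite (X i)] (Q0 : Subgroup (G ⧸ N))
    [Q0.FiniteIndex] (e : Q0 ≃* ∀ i, FreeGroup (X i)) : SLA.Automatic G := by
  obtain ⟨m, n, H, hH, ⟨f⟩⟩ := fcl_vprod h N S hSN hSfi hSs r hr X Q0 e
  exact SLA.automatic_of_zpf H f

/-- Finite asymptotic dimension of these groups. -/
theorem vprod_asdim {G : Type} [Group G] (N : Subgroup G)
    [N.Normal] (S : Subgroup G) (hSN : S ≤ N) (hSfi : S.relIndex N ≠ 0)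
    (hSs : Group.IsSolvable S) (r : ℕ)
    (hr : ∀ K : Subgroup G, K ≤ S → K.FG → ∃ T : Finset G, T.card ≤ r ∧
      Subgroup.closure (T : Set G) = K)
    {κ : Type} [Finite κ] (X : κ → Type) [∀ i, Finite (X i)] (Q0 : Subgroup (G ⧸ N))
    [Q0.FiniteIndex] (e : Q0 ≃* ∀ i, FreeGroup (X i)) : ∃ D : ℕ, VNP.AsdimLE G D := by
  obtain ⟨D, hD⟩ := SLA.asdimLE_vprod X Q0 e
  exact ln_asdim N hD S hSN hSfi r hr

/-- Virtually solvable groups of finite Pruefer rank are ShortLex-automatic if they have few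
conjugacy classes of small growth. -/
theorem fcl_sla {G : Type} [Group G] [hG : Group.FG G] (h : FCl G) (S : Subgroup G)
    [hS : S.FiniteIndex] (hSs : Group.IsSolvable S) (r : ℕ)
    (hr : ∀ K : Subgroup G, K ≤ S → K.FG → ∃ T : Finset G, T.card ≤ r ∧
      Subgroup.closure (T : Set G) = K) : SLA.ShortLexAutomatic G := by
  obtain ⟨_, A, hAn, _, hAfi, hAc, _⟩ := fcl_normal h ⊤ S le_top
    (by rw [relIndex_top_right]; exact hS.index_ne_zero) hSs r hr
  rw [relIndex_top_right] at hAfi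
  exact SLA.main hG A ⟨hAfi⟩ hAc

end Pool.Agent.VH
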