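import Pool.Agent.VH.Com
/-!
# Normal virtually solvable subgroups of groups with few conjugacy classes of small growth
-/
namespace Pool.Agent.VH
open Subgroup Pool.Agent.SLX

section abs
variable {G : Type} [Group G] [Group.FG G] (l : G → ℕ) (hone : l 1 = 0)
    (hmul : ∀ g h, l (g * h) ≤ l g + l h)
    (hcl : ∀ T : ℕ, ∃ S : Set G, S.Finite ∧ ∀ w : G,
      (∃ c : ℕ, ∀ n : ℕ, l (w ^ n) ≤ T * n + c) → ∃ x : G, x⁻¹ * w * x ∈ S)
    (hcom : ∀ a b z : G, z = a⁻¹ * b⁻¹ * a * b → Commute a z → Commute b z →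
      (Set.range (fun g : G => g⁻¹ * z * g)).Finite → IsOfFinOrder z)
include hone hmul hcl hcom

/-- Normal solvable subgroups of finite Pruefer rank. -/
theorem abs_normal (S : Subgroup G) [S.Normal] [Group.IsSolvable S] (r : ℕ)
    (hr : ∀ K : Subgroup G, K ≤ S → K.FG → ∃ T : Finset G, T.card ≤ r ∧
      Subgroup.closure (T : Set G) = K) :
    ∃ A : Subgroup G, A.Normal ∧ A ≤ S ∧ (∀ a ∈ A, ∀ b ∈ A, a * b = b * a) ∧ A.FG ∧
      A.relIndex S ≠ 0 ∧ (centralizer (A : Set G)).FiniteIndex := by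
  refine VS.rank_normal G S r hr ?_ ?_ ?_
  · intro B hBn hBS hBc
    exact VS.fg_of_rank l hone hmul hcl B hBc r (fun K hK => hr K (hK.trans hBS))
  · intro B hBn hBfg hBc
    exact VN.centralizer_fi_of_normal_ab l hone hmul hcl B hBfg hBc
  · intro x y z hz hx hy hfc
    refine hcom x⁻¹ y⁻¹ z ?_ ?_ ?_ hfc
    · rw [hz, inv_inv, inv_inv]
    · exact (show Commute x z from hx).inv_left
    · exact (show Commute y z from hy).inv_left

/-- Normal virtually solvable subgroups of finite Pruefer rank. -/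
theorem abs_virt_normal (N : Subgroup G) [N.Normal] (S : Subgroup G) (hSN : S ≤ N)
    (hSfi : S.relIndex N ≠ 0) (hSs : Group.IsSolvable S) (r : ℕ)
    (hr : ∀ K : Subgroup G, K ≤ S → K.FG → ∃ T : Finset G, T.card ≤ r ∧
      Subgroup.closure (T : Set G) = K) :
    N.FG ∧ ∃ A : Subgroup G, A.Normal ∧ A ≤ N ∧ A.relIndex N ≠ 0 ∧
      (∀ a ∈ A, ∀ b ∈ A, a * b = b * a) ∧ A.FG ∧ (∀ a ∈ A, IsOfFinOrder a → a = 1) ∧
      (centralizer (A : Set G)).FiniteIndex := by
  classical
  have hS' : (S.subgroupOf N).FiniteIndex := ⟨hSfi⟩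
  have hSs' : Group.IsSolvable (S.subgroupOf N) :=
    Group.isSolvable_of_isSolvable_injective
      (f := (subgroupOfEquivOfLe hSN).toMonoidHom) (subgroupOfEquivOfLe hSN).injective
  obtain ⟨R0, hRc, hRfi, hRs⟩ := VS.exists_radical N (S.subgroupOf N) hSs'
  set R : Subgroup G := R0.map N.subtype with hR
  have hRn : R.Normal := inferInstance
  have hRN : R ≤ N := map_subtype_le R0
  have hRR : R.subgroupOf N = R0 := by
    rw [hR, subgroupOf, comap_map_eq_self_of_injective N.subtype_injective]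
  have hRs' : Group.IsSolvable R :=
    Group.isSolvable_of_surjective (f := N.subtype.subgroupMap R0)
      (N.subtype.subgroupMap_surjective R0)
  have hRfi' : R.relIndex N ≠ 0 := by
    have : R.relIndex N = R0.index := by
      rw [relIndex, hRR]
    rw [this]
    exact hRfi.index_ne_zero
  have hrR : ∀ K : Subgroup G, K ≤ R → K.FG → ∃ T : Finset G, T.card ≤ r + S.relIndex N ∧
      Subgroup.closure (T : Set G) = K := by
    intro K hKR hKfg
    have hKN : K ≤ N := hKR.trans hRN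
    have h1 : (S ⊓ K).relIndex K ≠ 0 := by
      rw [inf_relIndex_right]
      exact fun h0 => hSfi (relIndex_eq_zero_of_le_right hKN h0)
    have h2 : (S ⊓ K).FG := by
      have h3 : Group.FG K := (Group.fg_iff_subgroup_fg K).2 hKfg
      have h4 : ((S ⊓ K).subgroupOf K).FiniteIndex := ⟨h1⟩
      have h5 : Group.FG ((S ⊓ K).subgroupOf K) := inferInstance
      have h6 : ((S ⊓ K).subgroupOf K).FG := (Group.fg_iff_subgroup_fg _).1 h5
      have h7 : (((S ⊓ K).subgroupOf K).map K.subtype).FG := by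
        obtain ⟨T0, hT0⟩ := h6
        exact ⟨T0.image K.subtype, by rw [Finset.coe_image, ← MonoidHom.map_closure, hT0]⟩
      rwa [subgroupOf_map_subtype, inf_assoc, inf_idem] at h7
    obtain ⟨T, hT, hTK⟩ := hr (S ⊓ K) inf_le_left h2
    obtain ⟨T', hT', hT'K⟩ := VS.gen_of_fi (S ⊓ K) K inf_le_right h1 T hTK
    refine ⟨T', hT'.trans (Nat.add_le_add hT ?_), hT'K⟩
    rw [inf_relIndex_right]
    exact relIndex_le_of_le_right hKN hSfi
  obtain ⟨A, hAn, hAR, hAc, hAfg, hAfi, hAC⟩ :=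
    abs_normal l hone hmul hcl hcom R _ hrR
  have hAN : A.relIndex N ≠ 0 := by
    rw [← relIndex_mul_relIndex A R N hAR hRN]
    exact mul_ne_zero hAfi hRfi'
  obtain ⟨A', hA'n, hA'A, hA'fi, hA'fg, hA'tf⟩ := VS.exists_tf A hAfg hAc
  have hA'N : A' ≤ N := (hA'A.trans hAR).trans hRN
  refine ⟨?_, A', hA'n, hA'N, ?_,
    fun a ha b hb => hAc a (hA'A ha) b (hA'A hb), hA'fg, hA'tf, ?_⟩
  · obtain ⟨T, hT⟩ := hAfg
    obtain ⟨T', _, hT'⟩ := VS.gen_of_fi A N (hAR.trans hRN) hAN T hT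
    exact ⟨T', hT'⟩
  · rw [← relIndex_mul_relIndex A' A N hA'A (hAR.trans hRN)]
    exact mul_ne_zero hA'fi hAN
  · have h1 : centralizer (A : Set G) ≤ centralizer (A' : Set G) :=
      centralizer_le (fun x hx => hA'A hx)
    exact finiteIndex_of_le h1

end abs

end Pool.Agent.VH
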