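import Pool.Agent.VH.FC
import Pool.Agent.VH.FC2
/-!
# Extensions of virtually solvable groups of finite rank by virtually free groups
-/
namespace Pool.Agent.VH
open Subgroup Pool.Agent.SLX

/-- Normal virtually solvable subgroups of finite Pruefer rank. -/
theorem fcl_normal {G : Type} [Group G] [Group.FG G] (h : FCl G) (N : Subgroup G) [N.Normal]
    (S : Subgroup G) (hSN : S ≤ N) (hSfi : S.relIndex N ≠ 0) (hSs : Group.IsSolvable S) (r : ℕ)
    (hr : ∀ K : Subgroup G, K ≤ S → K.FG → ∃ T : Finset G, T.card ≤ r ∧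
      Subgroup.closure (T : Set G) = K) :
    N.FG ∧ ∃ A : Subgroup G, A.Normal ∧ A ≤ N ∧ A.relIndex N ≠ 0 ∧
      (∀ a ∈ A, ∀ b ∈ A, a * b = b * a) ∧ A.FG ∧ (∀ a ∈ A, IsOfFinOrder a → a = 1) ∧
      (centralizer (A : Set G)).FiniteIndex := by
  obtain ⟨l, κ, h1, h2, h3, h4⟩ := h
  exact abs_virt_normal l h1 h2 h4 (fun a b z hz ha hb hf =>
    isOfFinOrder_iff_pow_eq_one.2 (fc_torsion' l κ h1 h2 h3 h4 a b z hz ha.eq hb.eq hf))
    N S hSN hSfi hSs r hr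

/-- Commutators. -/
theorem fcl_com {G : Type} [Group G] (h : FCl G) (a b z : G)
    (hz : z = a⁻¹ * b⁻¹ * a * b) (ha : Commute a z) (hb : Commute b z)
    (hfc : (centralizer ({z} : Set G)).FiniteIndex) : IsOfFinOrder z := by
  obtain ⟨l, κ, h1, h2, h3, h4⟩ := h
  exact isOfFinOrder_iff_pow_eq_one.2
    (fc_torsion' l κ h1 h2 h3 h4 a b z hz ha.eq hb.eq (class_finite_of_fi z hfc))

/-- Virtually solvable of finite Pruefer rank by virtually free. -/
theorem fcl_vfree {G : Type} [Group G] [Group.FG G] (h : FCl G) (N : Subgroup G) [N.Normal]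
    (S : Subgroup G) (hSN : S ≤ N) (hSfi : S.relIndex N ≠ 0) (hSs : Group.IsSolvable S) (r : ℕ)
    (hr : ∀ K : Subgroup G, K ≤ S → K.FG → ∃ T : Finset G, T.card ≤ r ∧
      Subgroup.closure (T : Set G) = K)
    (X : Type) [Finite X] (Q0 : Subgroup (G ⧸ N)) [Q0.FiniteIndex] (e : Q0 ≃* FreeGroup X) :
    ∃ (m n : ℕ) (H : Subgroup G), H.FiniteIndex ∧
      Nonempty (H ≃* (Fin m → Multiplicative ℤ) × FreeGroup (Fin n)) := by
  obtain ⟨_, A, hAn, hAN, hAfi, hAc, hAfg, _, hAC⟩ := fcl_normal h N S hSN hSfi hSs r hr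
  obtain ⟨n, H, hH, ⟨f⟩⟩ := SLA.vfree_split N A hAN hAfi hAC X Q0 e
  have hAfg' : Group.FG A := (Group.fg_iff_subgroup_fg A).2 hAfg
  obtain ⟨m, B, hB, ⟨f2⟩⟩ := VS.free_in_abelian A
    (fun a b => Subtype.ext (hAc a a.2 b b.2)) hAfg'
  obtain ⟨H', hH', hf⟩ := VS.prod_fi H f B f2
  exact ⟨m, n, H', hH', hf⟩

end Pool.Agent.VH
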