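import Pool.Agent.VH.Str
/-!
# Coarse retracts
-/
namespace Pool.Agent.VH
open Subgroup Pool.Agent.SLX Pool.Agent.SLA Monoid

theorem first_last {α : Type} (f : ℕ → α) (m : ℕ) (h : f m ≠ f 0) : ∃ i k : ℕ, i ≤ k ∧ k < m ∧
    f i = f 0 ∧ f (i + 1) ≠ f i ∧ f (k + 1) = f m ∧ f (k + 1) ≠ f k := by
  classical
  -- the first change
  have hex : ∃ i, f (i + 1) ≠ f 0 := by
    by_contra hno
    push Not at hno
    rcases Nat.eq_zero_or_pos m with rfl | hm
    · exact h rfl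
    · obtain ⟨m', rfl⟩ := Nat.exists_eq_add_of_lt hm
      rw [Nat.zero_add] at h
      exact h (hno m')
  have hi : ∀ i' ≤ Nat.find hex, f i' = f 0 := by
    intro i' hi'
    rcases Nat.eq_zero_or_pos i' with rfl | hp
    · rfl
    · obtain ⟨i'', rfl⟩ := Nat.exists_eq_add_of_lt hp
      rw [Nat.zero_add]
      by_contra hne
      have := Nat.find_min' hex (m := i'') hne
      omega
  -- the last change
  have key : ∀ m : ℕ, f m ≠ f 0 → ∃ k < m, f (k + 1) = f m ∧ f (k + 1) ≠ f k := by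
    intro m
    induction m with
    | zero => intro h0; exact absurd rfl h0
    | succ m ih =>
      intro h0
      by_cases h1 : f (m + 1) = f m
      · obtain ⟨k, hk, hk1, hk2⟩ := ih (by rw [← h1]; exact h0)
        exact ⟨k, by omega, by rw [h1]; exact hk1, hk2⟩
      · exact ⟨m, by omega, rfl, h1⟩
  obtain ⟨k, hk, hk1, hk2⟩ := key m h
  refine ⟨Nat.find hex, k, ?_, hk, hi _ le_rfl, ?_, hk1, hk2⟩
  · by_contra hlt
    push Not at hlt
    have := hi (k + 1) (by omega)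
    rw [hk1] at this
    exact h this
  · rw [hi _ le_rfl]
    exact Nat.find_spec hex

/-- `G` is embedded in `Γ` by `j` as a coarse retract. -/
def GRet {A Γ G : Type} [Group Γ] [Group G] (π : A → Γ) (j : G →* Γ) (ρ : Γ → G) : Prop :=
  (∀ a, ρ (j a) = a) ∧ ∃ C : ℕ, ∀ (n : ℕ) (x y : Γ), Wl π n (x⁻¹ * y) →
    Wl π (n + C) ((j (ρ x))⁻¹ * j (ρ y))

section
variable {A Γ G : Type} [Finite A] [Group Γ] [Group G] {π : A → Γ} {j : G →* Γ} {ρ : Γ → G}

theorem gret_inj (h : GRet π j ρ) : Function.Injective j := fun a b hab => by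
  rw [← h.1 a, ← h.1 b, hab]

theorem ball_finite (π : A → Γ) (n : ℕ) : {g : Γ | Wl π n g}.Finite := by
  refine (words_finite π n).subset ?_
  rintro g ⟨w, hw, rfl⟩
  exact ⟨w, hw, rfl⟩

/-- Coarse retracts are finitely generated. -/
theorem gret_fg (hgen : ∀ g : Γ, ∃ w, val π w = g) (h : GRet π j ρ) : Group.FG G := by
  classical
  obtain ⟨h1, C, h2⟩ := id h
  have hfin : (j ⁻¹' {g : Γ | Wl π (1 + C) g}).Finite :=
    (ball_finite π (1 + C)).preimage (gret_inj h).injOn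
  have key : ∀ (w : List A) (x : Γ), (ρ x)⁻¹ * ρ (x * val π w) ∈
      closure (j ⁻¹' {g : Γ | Wl π (1 + C) g}) := by
    intro w
    induction w with
    | nil =>
      intro x
      rw [show val π ([] : List A) = 1 from rfl, mul_one, inv_mul_cancel]
      exact one_mem _
    | cons a w ih =>
      intro x
      have e0 : val π (a :: w) = π a * val π w := rfl
      have e1 : (ρ x)⁻¹ * ρ (x * val π (a :: w)) = ((ρ x)⁻¹ * ρ (x * π a)) *
          ((ρ (x * π a))⁻¹ * ρ ((x * π a) * val π w)) := by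
        rw [e0, ← mul_assoc]
        group
      rw [e1]
      refine mul_mem (subset_closure ?_) (ih _)
      show Wl π (1 + C) (j ((ρ x)⁻¹ * ρ (x * π a)))
      rw [map_mul, map_inv]
      apply h2
      rw [inv_mul_cancel_left]
      exact ⟨[a], by simp, by simp [val]⟩
  refine ⟨⟨hfin.toFinset, ?_⟩⟩
  rw [Set.Finite.coe_toFinset, eq_top_iff]
  rintro g -
  obtain ⟨w, hw⟩ := hgen (j g)
  have := key w 1
  rw [one_mul, hw, h1, ← map_one j, h1, inv_one, one_mul] at this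
  exact this

/-- Composition. -/
theorem gret_comp (hgen : ∀ g : Γ, ∃ w, val π w = g) {H : Type} [Group H] {j' : H →* G}
    {ρ' : G → H} (h : GRet π j ρ) (h' : Str j' ρ') :
    GRet π (j.comp j') (fun x => ρ' (ρ x)) := by
  classical
  obtain ⟨h1, C, h2⟩ := id h
  obtain ⟨h3, h4⟩ := h'
  refine ⟨fun a => ?_, ?_⟩
  · show ρ' (ρ (j (j' a))) = a
    rw [h1, h3]
  choose F hF hh using h4
  have hlen : ∀ g : Γ, ∃ n, Wl π n g := by
    intro g
    obtain ⟨w, hw⟩ := hgen g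
    exact ⟨w.length, w, le_rfl, hw⟩
  choose len hl using hlen
  have hfin : (j ⁻¹' {g : Γ | Wl π (1 + C) g}).Finite :=
    (ball_finite π (1 + C)).preimage (gret_inj h).injOn
  -- the constant
  obtain ⟨C1, hC1⟩ : ∃ C1 : ℕ, ∀ g ∈ (j ⁻¹' {g : Γ | Wl π (1 + C) g}),
      (∀ f ∈ F g, Wl π C1 (j f)⁻¹ ∧ Wl π C1 (j f)) ∧
      ∀ f ∈ F g⁻¹, Wl π C1 (j f)⁻¹ ∧ Wl π C1 (j f) := by
    have hU : (⋃ g ∈ (j ⁻¹' {g : Γ | Wl π (1 + C) g}), (F g ∪ F g⁻¹)).Finite :=
      hfin.biUnion fun g _ => (hF g).union (hF _)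
    obtain ⟨C1, hC1⟩ := (hU.image fun f => len (j f)⁻¹ + len (j f)).bddAbove
    have hb : ∀ f ∈ (⋃ g ∈ (j ⁻¹' {g : Γ | Wl π (1 + C) g}), (F g ∪ F g⁻¹)),
        Wl π C1 (j f)⁻¹ ∧ Wl π C1 (j f) := by
      intro f hf
      have h5 : len (j f)⁻¹ + len (j f) ≤ C1 := hC1 ⟨f, hf, rfl⟩
      exact ⟨wl_mono (by omega) (hl _), wl_mono (by omega) (hl _)⟩
    exact ⟨C1, fun g hg => ⟨fun f hf => hb _ (Set.mem_biUnion hg (Or.inl hf)),
      fun f hf => hb _ (Set.mem_biUnion hg (Or.inr hf))⟩⟩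
  refine ⟨C + 2 * C1, ?_⟩
  rintro n x y ⟨w, hw, hwv⟩
  have hy : y = x * val π w := by rw [hwv]; group
  set X : ℕ → Γ := fun k => x * val π (w.take k) with hX
  set f : ℕ → H := fun k => ρ' (ρ (X k)) with hf
  have hX0 : X 0 = x := by
    show x * val π (w.take 0) = x
    rw [List.take_zero]
    exact mul_one x
  have hXm : X w.length = y := by
    show x * val π (w.take w.length) = y
    rw [List.take_length, hy]
  have hXX : ∀ i k : ℕ, i ≤ k → Wl π (k - i) ((X i)⁻¹ * X k) := by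
    intro i k hik
    refine ⟨(w.drop i).take (k - i), by rw [List.length_take]; omega, ?_⟩
    have e1 : w.take k = w.take i ++ (w.drop i).take (k - i) := by
      have : k = i + (k - i) := by omega
      conv_lhs => rw [this, List.take_add]
    show val π ((w.drop i).take (k - i)) = (x * val π (w.take i))⁻¹ * (x * val π (w.take k))
    rw [e1, val_app]
    group
  have hstep : ∀ i : ℕ, (ρ (X i))⁻¹ * ρ (X (i + 1)) ∈ (j ⁻¹' {g : Γ | Wl π (1 + C) g}) := by
    intro i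
    show Wl π (1 + C) (j ((ρ (X i))⁻¹ * ρ (X (i + 1))))
    rw [map_mul, map_inv]
    apply h2
    have := hXX i (i + 1) (by omega)
    rwa [Nat.add_sub_cancel_left] at this
  by_cases hc : f w.length = f 0
  · have e1 : ρ' (ρ x) = ρ' (ρ y) := by
      have e2 : ρ' (ρ (X w.length)) = ρ' (ρ (X 0)) := hc
      rw [hX0, hXm] at e2
      exact e2.symm
    show Wl π _ (((j.comp j') (ρ' (ρ x)))⁻¹ * (j.comp j') (ρ' (ρ y)))
    rw [e1, inv_mul_cancel]
    exact wl_mono (Nat.zero_le _) wl_one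
  · obtain ⟨i, k, hik, hkm, hi1, hi2, hk1, hk2⟩ := first_last f w.length hc
    have e2 : (j' (ρ' (ρ (X i))))⁻¹ * ρ (X i) ∈ F ((ρ (X i))⁻¹ * ρ (X (i + 1))) := by
      apply hh
      rw [mul_inv_cancel_left]
      exact hi2
    have e3 : (j' (ρ' (ρ (X (k + 1)))))⁻¹ * ρ (X (k + 1)) ∈
        F ((ρ (X k))⁻¹ * ρ (X (k + 1)))⁻¹ := by
      apply hh
      rw [mul_inv_rev, inv_inv, mul_inv_cancel_left]
      exact hk2.symm
    have e4 := ((hC1 _ (hstep i)).1 _ e2).2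
    have e5 := ((hC1 _ (hstep k)).2 _ e3).1
    have e6 := h2 _ _ _ (hXX i (k + 1) (by omega))
    have e7 := wl_mul (wl_mul e4 e6) e5
    have e8 : ρ' (ρ (X i)) = ρ' (ρ x) := by
      have : ρ' (ρ (X i)) = ρ' (ρ (X 0)) := hi1
      rw [this, hX0]
    have e9 : ρ' (ρ (X (k + 1))) = ρ' (ρ y) := by
      have : ρ' (ρ (X (k + 1))) = ρ' (ρ (X w.length)) := hk1
      rw [this, hXm]
    have e10 : j ((j' (ρ' (ρ (X i))))⁻¹ * ρ (X i)) *
        ((j (ρ (X i)))⁻¹ * j (ρ (X (k + 1)))) *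
        (j ((j' (ρ' (ρ (X (k + 1)))))⁻¹ * ρ (X (k + 1))))⁻¹ =
        ((j.comp j') (ρ' (ρ x)))⁻¹ * (j.comp j') (ρ' (ρ y)) := by
      rw [e8, e9, map_mul, map_mul, map_inv, map_inv]
      show _ = (j (j' (ρ' (ρ x))))⁻¹ * j (j' (ρ' (ρ y)))
      group
    rw [e10] at e7
    refine wl_mono ?_ e7
    omega

end

end Pool.Agent.VH
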