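import Pool.Agent.VH.Class
import Pool.Agent.VH.GRet
import Pool.Agent.RET.PGret
/-!
# Coarse retracts of groups with a finite complete ShortLex system
-/
namespace Pool.Agent.VH
open Subgroup Pool.Agent.SLX Pool.Agent.SLA Monoid

/-- A length function with fillings on a coarse retract. -/
theorem gret_ln {A Γ G : Type} [Finite A] [LinearOrder A] [Group Γ] [Group G] {π : A → Γ}
    {E : Set (List A × List A)} (hE : IsSystem π E) {j : G →* Γ} {ρ : Γ → G}
    (h : GRet π j ρ) : Nonempty (LN G) := by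
  obtain ⟨h1, C, h2⟩ := id h
  have hcr : CoRet (Wl π) j.range := by
    refine ⟨fun x => j (ρ x), C, fun x => ⟨_, rfl⟩, ?_, h2⟩
    rintro _ ⟨a, rfl⟩
    show j (ρ (j a)) = j a
    rw [h1]
  obtain ⟨F, _⟩ := exists_ln hE _ hcr
  exact ln_equiv (MonoidHom.ofInjective (gret_inj h)).symm F

/-- Length functions with fillings on groups of finite asymptotic dimension. -/
theorem fcl_of_ln {G : Type} [Group G] (F : LN G) {D : ℕ} (hD : VNP.AsdimLE G D) : FCl G := by
  obtain ⟨κ, hκ⟩ := F.exists_inv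
  exact ⟨F.l, κ, F.l_one, F.l_mul, hκ, classes_finite F (conj_short F (asd_of_asdim F hD))⟩

theorem str_free {ι : Type} (M : ι → Type) [∀ i, Group (M i)] (i : ι) :
    ∃ ρ : CoprodI M → M i, Str (CoprodI.of : M i →* CoprodI M) ρ := by
  classical
  have hA := alc_hd (M := M) i
  choose ρ hρ using fun x : CoprodI M => hd_mem i x
  refine ⟨ρ, fun a => CoprodI.of_injective i (by rw [hρ, hd_self]), fun g => ?_⟩
  obtain ⟨F, hF⟩ := hA.fin g
  refine ⟨(fun f => (hd i f)⁻¹ * f) '' (F : Set (CoprodI M)), F.finite_toSet.image _, ?_⟩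
  intro x hx
  obtain ⟨h, hh, f, hf, rfl⟩ := hF x (by
    rw [← hρ, ← hρ]
    exact fun h0 => hx (CoprodI.of_injective i h0))
  refine ⟨f, hf, ?_⟩
  show (hd i f)⁻¹ * f = (CoprodI.of (ρ (h * f)))⁻¹ * (h * f)
  rw [hρ, hA.eqv h hh]
  group

theorem str_fi {G : Type} [Group G] (H : Subgroup G) [H.FiniteIndex] :
    ∃ ρ : G → H, Str H.subtype ρ := by
  classical
  have hfin : Finite (G ⧸ H) := inferInstance
  have hmem : ∀ x : G, x * (QuotientGroup.mk x⁻¹ : G ⧸ H).out ∈ H := by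
    intro x
    have h5 : (x⁻¹)⁻¹ * (QuotientGroup.mk x⁻¹ : G ⧸ H).out ∈ H := by
      rw [← QuotientGroup.eq, QuotientGroup.out_eq']
    rwa [inv_inv] at h5
  refine ⟨fun x => if hx : x ∈ H then ⟨x, hx⟩ else ⟨_, hmem x⟩, fun a => ?_, fun g => ?_⟩
  · show (if hx : (a : G) ∈ H then (⟨a, hx⟩ : H) else ⟨_, hmem a⟩) = a
    rw [dif_pos a.2]
  · refine ⟨insert 1 (Set.range (fun q : G ⧸ H => q.out⁻¹)), (Set.finite_range _).insert _, ?_⟩
    intro x _
    by_cases hx : x ∈ H
    · left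
      show (((if hx : x ∈ H then (⟨x, hx⟩ : H) else ⟨_, hmem x⟩ : H) : G))⁻¹ * x = 1
      rw [dif_pos hx]
      exact inv_mul_cancel x
    · right
      refine ⟨QuotientGroup.mk x⁻¹, ?_⟩
      show _ = (((if hx : x ∈ H then (⟨x, hx⟩ : H) else ⟨_, hmem x⟩ : H) : G))⁻¹ * x
      rw [dif_neg hx]
      show _ = (x * (QuotientGroup.mk x⁻¹ : G ⧸ H).out)⁻¹ * x
      group

theorem clsP_gret {G : Type} [Group G] (hC : ClsP G) :
    ∀ (A Γ : Type) [Finite A] [LinearOrder A] [Group Γ] (π : A → Γ)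
      (E : Set (List A × List A)) (_ : IsSystem π E) (j : G →* Γ) (ρ : Γ → G),
      GRet π j ρ → Automatic G := by
  induction hC with
  | cls h =>
    intro A Γ _ _ _ π E hE j ρ hr
    have hfg := gret_fg hE.surj hr
    obtain ⟨F⟩ := gret_ln hE hr
    obtain ⟨D, hD⟩ := cls_asdim h hfg
    exact cls_automatic h hfg (fcl_of_ln F hD)
  | aut h => exact fun A Γ _ _ _ π E _ j ρ _ => h
  | @free ι _ M _ h ih =>
    intro A Γ _ _ _ π E hE j ρ hr
    refine automatic_freeProd M fun i => ?_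
    obtain ⟨ρ', h'⟩ := str_free M i
    exact ih i A Γ π E hE _ _ (gret_comp hE.surj hr h')
  | fi H h ih =>
    intro A Γ _ _ _ π E hE j ρ hr
    obtain ⟨ρ', h'⟩ := str_fi H
    exact automatic_of_fi H (ih A Γ π E hE _ _ (gret_comp hE.surj hr h'))
  | rel P hP h ih =>
    intro A Γ _ _ _ π E hE j ρ hr
    obtain ⟨A', hAf, hA, _, ⟨L⟩⟩ := REL.exists_plen P hP
    refine RET.plen_automatic hAf hA L fun i => ?_
    obtain ⟨ρ', h'⟩ := RET.peri_gret hE.surj hr L i
    exact ih i A Γ π E hE _ _ h'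
  | iso e h ih =>
    intro A Γ _ _ _ π E hE j ρ hr
    exact automatic_of_equiv e (ih A Γ π E hE _ _ (gret_comp hE.surj hr (str_equiv e)))

/-- **Coarse retracts.** -/
theorem clsP_coret {A Γ : Type} [Finite A] [LinearOrder A] [Group Γ] {π : A → Γ}
    {E : Set (List A × List A)} (hE : IsSystem π E) (H : Subgroup Γ) (hH : CoRet (Wl π) H)
    (hC : ClsP H) : Automatic H := by
  obtain ⟨ρ, C, h1, h2, h3⟩ := hH
  exact clsP_gret hC A Γ π E hE H.subtype (fun x => ⟨ρ x, h1 x⟩)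
    ⟨fun a => Subtype.ext (h2 a a.2), C, h3⟩

/-- **The groups of the class with a finite complete ShortLex system are automatic.** -/
theorem clsP_main {G : Type} [Group G] (hC : ClsP G) (h : HasSystem G) : Automatic G := by
  obtain ⟨A, _, _, π, E, hE⟩ := h
  exact clsP_gret hC A G π E hE (MonoidHom.id G) id ⟨fun _ => rfl, 0, fun n x y hxy => hxy⟩

theorem clsQ_gret {G : Type} [Group G] (hC : ClsQ G) :
    ∀ (A Γ : Type) [Finite A] [LinearOrder A] [Group Γ] (π : A → Γ)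
      (E : Set (List A × List A)) (_ : IsSystem π E) (j : G →* Γ) (ρ : Γ → G),
      GRet π j ρ → ShortLexAutomatic G := by
  induction hC with
  | cls h =>
    intro A Γ _ _ _ π E hE j ρ hr
    have hfg := gret_fg hE.surj hr
    obtain ⟨F⟩ := gret_ln hE hr
    obtain ⟨D, hD⟩ := clsS_asdim h hfg
    exact clsS_automatic h hfg (fcl_of_ln F hD)
  | sla h => exact fun A Γ _ _ _ π E _ j ρ _ => h
  | @free ι _ M _ h ih =>
    intro A Γ _ _ _ π E hE j ρ hr
    refine freeProd M fun i => ?_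
    obtain ⟨ρ', h'⟩ := str_free M i
    exact ih i A Γ π E hE _ _ (gret_comp hE.surj hr h')
  | iso e h ih =>
    intro A Γ _ _ _ π E hE j ρ hr
    exact sla_equiv e (ih A Γ π E hE _ _ (gret_comp hE.surj hr (str_equiv e)))

/-- Coarse retracts, ShortLex-automatic groups. -/
theorem clsQ_coret {A Γ : Type} [Finite A] [LinearOrder A] [Group Γ] {π : A → Γ}
    {E : Set (List A × List A)} (hE : IsSystem π E) (H : Subgroup Γ) (hH : CoRet (Wl π) H)
    (hC : ClsQ H) : ShortLexAutomatic H := by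
  obtain ⟨ρ, C, h1, h2, h3⟩ := hH
  exact clsQ_gret hC A Γ π E hE H.subtype (fun x => ⟨ρ x, h1 x⟩)
    ⟨fun a => Subtype.ext (h2 a a.2), C, h3⟩

theorem clsQ_main {G : Type} [Group G] (hC : ClsQ G) (h : HasSystem G) :
    ShortLexAutomatic G := by
  obtain ⟨A, _, _, π, E, hE⟩ := h
  exact clsQ_gret hC A G π E hE (MonoidHom.id G) id ⟨fun _ => rfl, 0, fun n x y hxy => hxy⟩

end Pool.Agent.VH
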