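import Pool.Agent.VH.RetDef
/-!
# Almost locally constant retractions are coarse retractions
-/
namespace Pool.Agent.VH
open Pool.Agent.SLX

section
variable {A G : Type} [Group G] {π : A → G}

theorem wl_one : Wl π 0 (1 : G) := ⟨[], le_rfl, rfl⟩

theorem wl_mono {m n : ℕ} {g : G} (h : m ≤ n) (hg : Wl π m g) : Wl π n g := by
  obtain ⟨w, h1, h2⟩ := hg
  exact ⟨w, h1.trans h, h2⟩

theorem val_app (u v : List A) : val π (u ++ v) = val π u * val π v := by
  unfold val
  rw [List.map_append, List.prod_append]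

theorem wl_mul {m n : ℕ} {g h : G} (hg : Wl π m g) (hh : Wl π n h) : Wl π (m + n) (g * h) := by
  obtain ⟨u, h1, rfl⟩ := hg
  obtain ⟨v, h2, rfl⟩ := hh
  exact ⟨u ++ v, by rw [List.length_append]; omega, val_app u v⟩

/-- `rho` is almost locally constant and equivariant. -/
structure Alc (H : Subgroup G) (ρ : G → G) : Prop where
  mem : ∀ x, ρ x ∈ H
  eqv : ∀ h ∈ H, ∀ x, ρ (h * x) = h * ρ x
  fin : ∀ g : G, ∃ F : Finset G, ∀ x, ρ (x * g) ≠ ρ x → ∃ h ∈ H, ∃ f ∈ F, x = h * f

/-- Almost locally constant equivariant maps do not increase the distances, up to an additive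
constant. -/
theorem alc_coarse [Finite A] (hgen : ∀ g : G, ∃ w, val π w = g) {H : Subgroup G} {ρ : G → G}
    (h : Alc H ρ) : ∃ C : ℕ, ∀ (n : ℕ) (x y : G), Wl π n (x⁻¹ * y) →
      Wl π (n + C) ((ρ x)⁻¹ * ρ y) := by
  classical
  have hlen : ∀ g : G, ∃ n, Wl π n g := by
    intro g
    obtain ⟨w, hw⟩ := hgen g
    exact ⟨w.length, w, le_rfl, hw⟩
  choose F hF using fun a : A => h.fin (π a)
  choose len hl using hlen
  -- the constant
  obtain ⟨C1, hC1⟩ : ∃ C1 : ℕ, ∀ a : A, ∀ f ∈ F a, Wl π C1 ((ρ f)⁻¹ * f) ∧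
      Wl π C1 ((f * π a)⁻¹ * ρ (f * π a)) := by
    have : Fintype A := Fintype.ofFinite A
    refine ⟨∑ a : A, ∑ f ∈ F a, (len ((ρ f)⁻¹ * f) + len ((f * π a)⁻¹ * ρ (f * π a))), ?_⟩
    intro a f hf
    have e1 : len ((ρ f)⁻¹ * f) + len ((f * π a)⁻¹ * ρ (f * π a)) ≤
        ∑ f ∈ F a, (len ((ρ f)⁻¹ * f) + len ((f * π a)⁻¹ * ρ (f * π a))) :=
      Finset.single_le_sum
        (f := fun f => len ((ρ f)⁻¹ * f) + len ((f * π a)⁻¹ * ρ (f * π a)))
        (fun _ _ => Nat.zero_le _) hf
    have e2 : (∑ f ∈ F a, (len ((ρ f)⁻¹ * f) + len ((f * π a)⁻¹ * ρ (f * π a)))) ≤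
        ∑ a : A, ∑ f ∈ F a, (len ((ρ f)⁻¹ * f) + len ((f * π a)⁻¹ * ρ (f * π a))) :=
      Finset.single_le_sum
        (f := fun a => ∑ f ∈ F a, (len ((ρ f)⁻¹ * f) + len ((f * π a)⁻¹ * ρ (f * π a))))
        (fun _ _ => Nat.zero_le _) (Finset.mem_univ a)
    exact ⟨wl_mono (by omega) (hl _), wl_mono (by omega) (hl _)⟩
  have val_cons : ∀ (a : A) (w : List A), val π (a :: w) = π a * val π w := fun _ _ => rfl
  -- the first change
  have first : ∀ (w : List A) (x : G), ρ (x * val π w) ≠ ρ x → ∃ u v : List A, w = u ++ v ∧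
      ρ (x * val π u) = ρ x ∧ Wl π C1 ((ρ x)⁻¹ * (x * val π u)) := by
    intro w
    induction w with
    | nil =>
      intro x hx
      exact absurd (by rw [show val π ([] : List A) = 1 from rfl, mul_one]) hx
    | cons a w ih =>
      intro x hx
      by_cases hc : ρ (x * π a) = ρ x
      · have hx' : ρ ((x * π a) * val π w) ≠ ρ (x * π a) := by
          rw [hc, mul_assoc, ← val_cons]
          exact hx
        obtain ⟨u, v, h1, h2, h3⟩ := ih (x * π a) hx'
        refine ⟨a :: u, v, by rw [h1]; rfl, ?_, ?_⟩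
        · rw [val_cons, ← mul_assoc, h2, hc]
        · rw [val_cons, ← mul_assoc x (π a), ← hc]
          exact h3
      · obtain ⟨g, hg, f, hf, rfl⟩ := hF a x hc
        refine ⟨[], a :: w, rfl, ?_, ?_⟩
        · rw [show val π ([] : List A) = 1 from rfl, mul_one]
        · rw [show val π ([] : List A) = 1 from rfl, mul_one, h.eqv g hg]
          have e : (g * ρ f)⁻¹ * (g * f) = (ρ f)⁻¹ * f := by group
          rw [e]
          exact (hC1 a f hf).1
  -- the last change
  have last : ∀ (w : List A) (x : G), ρ (x * val π w) ≠ ρ x → ∃ u v : List A, w = u ++ v ∧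
      Wl π C1 ((x * val π u)⁻¹ * ρ (x * val π w)) := by
    intro w
    induction w using List.reverseRecOn with
    | nil =>
      intro x hx
      exact absurd (by rw [show val π ([] : List A) = 1 from rfl, mul_one]) hx
    | append_singleton w a ih =>
      intro x hx
      have ev : val π (w ++ [a]) = val π w * π a := by
        rw [val_app, val_cons]
        rw [show val π ([] : List A) = 1 from rfl, mul_one]
      by_cases hc : ρ (x * val π w * π a) = ρ (x * val π w)
      · have hx' : ρ (x * val π w) ≠ ρ x := by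
          rw [← hc, mul_assoc, ← ev]
          exact hx
        obtain ⟨u, v, h1, h2⟩ := ih x hx'
        refine ⟨u, v ++ [a], by rw [h1, List.append_assoc], ?_⟩
        rw [ev, ← mul_assoc, hc]
        exact h2
      · obtain ⟨g, hg, f, hf, hxf⟩ := hF a _ hc
        refine ⟨w ++ [a], [], by rw [List.append_nil], ?_⟩
        rw [ev, ← mul_assoc, hxf, mul_assoc g f, h.eqv g hg]
        have e : (g * (f * π a))⁻¹ * (g * ρ (f * π a)) = (f * π a)⁻¹ * ρ (f * π a) := by group
        rw [e]
        exact (hC1 a f hf).2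
  refine ⟨2 * C1, ?_⟩
  rintro n x y ⟨w, hw, hwv⟩
  obtain rfl : y = x * val π w := by rw [hwv]; group
  by_cases hc : ρ (x * val π w) = ρ x
  · rw [hc, inv_mul_cancel]
    exact wl_mono (Nat.zero_le _) wl_one
  · obtain ⟨u, v, rfl, h2, h3⟩ := first w x hc
    have hv : ρ ((x * val π u) * val π v) ≠ ρ (x * val π u) := by
      rw [h2, mul_assoc, ← val_app]
      exact hc
    obtain ⟨u', v', rfl, h4⟩ := last v _ hv
    have h5 : Wl π u'.length (val π u') := ⟨u', le_rfl, rfl⟩
    have h6 := wl_mul (wl_mul h3 h5) h4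
    have e : (ρ x)⁻¹ * (x * val π u) * val π u' *
        ((x * val π u * val π u')⁻¹ * ρ (x * val π u * val π (u' ++ v'))) =
        (ρ x)⁻¹ * ρ (x * val π (u ++ (u' ++ v'))) := by
      rw [val_app u, ← mul_assoc x]
      group
    rw [e] at h6
    refine wl_mono ?_ h6
    rw [List.length_append, List.length_append] at hw
    omega

end

end Pool.Agent.VH
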