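import Mathlib
import Pool.Agent.SLA.Defs
import Pool.Agent.VNP.AsDef
import Pool.Agent.VEA.Defs
import Pool.Agent.REL.RelDef
/-!
# The classes of groups of MP_6a3c10_al: definitions
-/
namespace Pool.Agent.VH
open Subgroup Pool.Agent.SLX Pool.Agent.SLA Monoid

/-- The element `a` has infinite order and commensurated cyclic subgroup. -/
def Commens {G : Type} [Group G] (a : G) : Prop :=
  ¬ IsOfFinOrder a ∧ ∀ g : G, ∃ m n : ℤ, m ≠ 0 ∧ n ≠ 0 ∧ g * a ^ m * g⁻¹ = a ^ n

/-- `Q` is word-hyperbolic: hyperbolic relative to the empty family of subgroups. -/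
def Hyp (Q : Type) [Group Q] : Prop := REL.RelHyp (fun i : Empty => (i.elim : Subgroup Q))

/-- `Q` has a subgroup of finite index which is a finite direct product of word-hyperbolic
groups. -/
def VProdHyp (Q : Type) [Group Q] : Prop :=
  ∃ (κ : Type) (_ : Finite κ) (P : κ → Type) (_ : ∀ i, Group (P i)) (Q0 : Subgroup Q),
    (∀ i, Hyp (P i)) ∧ Q0.FiniteIndex ∧ Nonempty (Q0 ≃* ∀ i, P i)

/-- `N` has a solvable subgroup of finite index and of finite Pruefer rank. -/
def SmallR {G : Type} [Group G] (N : Subgroup G) : Prop :=
  ∃ (S : Subgroup G) (r : ℕ), S ≤ N ∧ S.relIndex N ≠ 0 ∧ Group.IsSolvable S ∧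
    ∀ K : Subgroup G, K ≤ S → K.FG → ∃ T : Finset G, T.card ≤ r ∧
      Subgroup.closure (T : Set G) = K

/-- `N` has a solvable subgroup of finite index and of finite Pruefer rank, or `G` is residually
finite of finite asymptotic dimension and `N` is elementary amenable. -/
def Small {G : Type} [Group G] (N : Subgroup G) : Prop :=
  (∃ (S : Subgroup G) (r : ℕ), S ≤ N ∧ S.relIndex N ≠ 0 ∧ Group.IsSolvable S ∧
    ∀ K : Subgroup G, K ≤ S → K.FG → ∃ T : Finset G, T.card ≤ r ∧
      Subgroup.closure (T : Set G) = K) ∨
  (Group.ResiduallyFinite G ∧ (∃ D, VNP.AsdimLE G D) ∧ VEA.ElementaryAmenable N)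

/-- The class. It contains

* `aut`: the automatic groups of finite asymptotic dimension;
* `ext`: the groups with a virtually solvable normal subgroup of finite Pruefer rank such that the
  quotient is virtually a finite direct product of word-hyperbolic groups;
* `cyc`: the groups of finite asymptotic dimension with an element `a` of infinite order such that
  the subgroup generated by `a` is commensurated and the quotients by the normal subgroups generated
  by powers of `a`, if there are any, are virtually finite direct products of word-hyperbolic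
  groups;

and it is closed under finite free products, direct products, extensions with finite kernel,
finite extensions and relative hyperbolicity (`rel`): it contains the groups which are hyperbolic
relative to finitely many groups of the class. -/
inductive Cls : (G : Type) → [Group G] → Prop
  | aut {G : Type} [Group G] (hD : ∃ D, VNP.AsdimLE G D) (hA : Automatic G) : Cls G
  | ext {G : Type} [Group G] (N : Subgroup G) [N.Normal] (hN : SmallR N)
      (hQ : VProdHyp (G ⧸ N)) : Cls G
  | cyc {G : Type} [Group G] (hD : ∃ D, VNP.AsdimLE G D) (a : G) (ha : Commens a)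
      (hq : ∀ M : ℕ, 0 < M → ∀ [(zpowers (a ^ M)).Normal],
        VProdHyp (G ⧸ zpowers (a ^ M))) : Cls G
  | free {ι : Type} [Finite ι] (M : ι → Type) [∀ i, Group (M i)] (h : ∀ i, Cls (M i)) :
      Cls (CoprodI M)
  | prod {G K : Type} [Group G] [Group K] (hG : Cls G) (hK : Cls K) : Cls (G × K)
  | fker {G : Type} [Group G] (N : Subgroup G) [N.Normal] [Finite N] (h : Cls (G ⧸ N)) : Cls G
  | fi {G : Type} [Group G] (H : Subgroup G) [H.FiniteIndex] (h : Cls H) : Cls G
  | rel {G : Type} [Group G] {ι : Type} [Finite ι] (P : ι → Subgroup G) (hP : REL.RelHyp P)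
      (h : ∀ i, Cls (P i)) : Cls G
  | iso {G H : Type} [Group G] [Group H] (e : G ≃* H) (h : Cls G) : Cls H

/-- The closure of the class `Cls` and of the class of all automatic groups under finite free
products, finite extensions and relative hyperbolicity. -/
inductive ClsP : (G : Type) → [Group G] → Prop
  | cls {G : Type} [Group G] (h : Cls G) : ClsP G
  | aut {G : Type} [Group G] (h : Automatic G) : ClsP G
  | free {ι : Type} [Finite ι] (M : ι → Type) [∀ i, Group (M i)] (h : ∀ i, ClsP (M i)) :
      ClsP (CoprodI M)
  | fi {G : Type} [Group G] (H : Subgroup G) [H.FiniteIndex] (h : ClsP H) : ClsP G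
  | rel {G : Type} [Group G] {ι : Type} [Finite ι] (P : ι → Subgroup G) (hP : REL.RelHyp P)
      (h : ∀ i, ClsP (P i)) : ClsP G
  | iso {G H : Type} [Group G] [Group H] (e : G ≃* H) (h : ClsP G) : ClsP H

/-- The class for ShortLex-automatic groups: it contains the ShortLex-automatic groups of finite
asymptotic dimension, the virtually solvable groups of finite Pruefer rank and the residually finite
elementary amenable groups of finite asymptotic dimension, and it is closed under finite free
products and direct products. -/
inductive ClsS : (G : Type) → [Group G] → Prop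
  | sla {G : Type} [Group G] (hD : ∃ D, VNP.AsdimLE G D) (hA : ShortLexAutomatic G) : ClsS G
  | small {G : Type} [Group G] (hN : Small (⊤ : Subgroup G)) : ClsS G
  | free {ι : Type} [Finite ι] (M : ι → Type) [∀ i, Group (M i)] (h : ∀ i, ClsS (M i)) :
      ClsS (CoprodI M)
  | prod {G K : Type} [Group G] [Group K] (hG : ClsS G) (hK : ClsS K) : ClsS (G × K)
  | iso {G H : Type} [Group G] [Group H] (e : G ≃* H) (h : ClsS G) : ClsS H

/-- The closure of the class `ClsS` and of the class of all ShortLex-automatic groups under finite
free products. -/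
inductive ClsQ : (G : Type) → [Group G] → Prop
  | cls {G : Type} [Group G] (h : ClsS G) : ClsQ G
  | sla {G : Type} [Group G] (h : ShortLexAutomatic G) : ClsQ G
  | free {ι : Type} [Finite ι] (M : ι → Type) [∀ i, Group (M i)] (h : ∀ i, ClsQ (M i)) :
      ClsQ (CoprodI M)
  | iso {G H : Type} [Group G] [Group H] (e : G ≃* H) (h : ClsQ G) : ClsQ H

end Pool.Agent.VH
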