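import Pool.Agent.VH.FC5
import Pool.Agent.VEA.Core
import Pool.Agent.VN.ResAb
import Pool.Agent.VN.Rank
import Pool.Agent.VS.PolyRank
/-!
# Residually finite extensions of elementary amenable groups by virtual products of free groups
-/
namespace Pool.Agent.VH
open Subgroup Pool.Agent.SLX

theorem resFin_of {G : Type} [Group G] (hr : Group.ResiduallyFinite G) : VN.ResFin G := by
  intro g hg
  obtain ⟨N, hN⟩ := Group.exists_finiteIndexNormalSubgroup_notMem g hg
  exact ⟨N.toSubgroup, inferInstance, inferInstance, hN⟩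

theorem tl_of_tors {G : Type} [Group G] (l : G → ℕ) {e : ℕ} (he : 0 < e) {t : G}
    (ht : t ^ e = 1) : VN.TauLe l 1 t := by
  refine ⟨∑ r ∈ Finset.range e, l (t ^ r), fun n => ?_⟩
  have h1 : t ^ n = t ^ (n % e) := by
    conv_lhs => rw [← Nat.div_add_mod n e]
    rw [pow_add, pow_mul, ht, one_pow, one_mul]
  rw [h1]
  have h2 : l (t ^ (n % e)) ≤ ∑ r ∈ Finset.range e, l (t ^ r) :=
    Finset.single_le_sum (f := fun r => l (t ^ r)) (fun _ _ => Nat.zero_le _)
      (Finset.mem_range.2 (Nat.mod_lt _ he))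
  omega

/-- Elementary amenable subgroups of residually finite groups of finite asymptotic dimension. -/
theorem fcl_rf_rank {G : Type} [Group G] (h : FCl G)
    (hr : Group.ResiduallyFinite G) {D : ℕ} (hD : VNP.AsdimLE G D) (N : Subgroup G)
    (hN : VEA.ElementaryAmenable N) :
    ∃ (A : Subgroup G) (r : ℕ), A ≤ N ∧ A.relIndex N ≠ 0 ∧ Group.IsSolvable A ∧
      ∀ K : Subgroup G, K ≤ A → K.FG → ∃ T : Finset G, T.card ≤ r ∧
        Subgroup.closure (T : Set G) = K := by
  obtain ⟨l, κ0, hone, hmul, hinv, hcl⟩ := id h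
  have hr' := resFin_of hr
  have hrk : ∀ (n : ℕ) (φ : Multiplicative (Fin n → ℤ) →* G), Function.Injective φ → n ≤ D :=
    fun n φ hφ => VN.rank_le_of_injective hD φ hφ
  have hfg := VN.ab_fg l hone hmul hinv hcl hr' hrk
  obtain ⟨T, _, h2, h3⟩ := VN.rf_kernel l hcl hr' 1
  have hC : VEA.Ctx T D := by
    refine ⟨?_, hfg, ?_, ?_, hrk⟩
    · intro x hx n hn hxn
      exact h3 x hx (tl_of_tors l hn hxn)
    · intro A hA
      obtain ⟨K, _, h5, h6⟩ := VN.rf_normalizer l hone hmul hcl hr' A (hfg A hA) hA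
      exact ⟨K, h5, h6⟩
    · intro P P0 h0 h0i h0s
      exact (VN.rf_vsolvable l hone hmul hinv hcl hr' hrk P P0 h0 h0i h0s).1
  obtain ⟨A, hAN, hAi, hA⟩ := VEA.elemamen_va hC h2 N hN
  have hAs : Group.IsSolvable A := by
    let _ : CommGroup A := { (inferInstance : Group A) with
      mul_comm := fun a b => Subtype.ext (hA a a.2 b b.2) }
    exact Group.isSolvable_of_comm (fun a b => mul_comm a b)
  obtain ⟨r, hr2⟩ := VS.rank_of_max A
    (fun H hH => hfg H (fun a ha b hb => hA a (hH ha) b (hH hb)))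
  exact ⟨A, r, hAN, hAi, hAs, hr2⟩

end Pool.Agent.VH
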