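import Pool.Agent.VH.FC
import Pool.Agent.SLA.Prod
/-!
# Finite normal subgroups
-/
namespace Pool.Agent.VH
open Pool.Agent.SLX Pool.Agent.SLA

/-- The quotient by a finite normal subgroup. -/
theorem fcl_ker {G : Type} [Group G] (N : Subgroup G) [N.Normal] [Finite N] (h : FCl G) :
    FCl (G ⧸ N) := by
  classical
  obtain ⟨l, κ, h1, h2, h3, h4⟩ := h
  have hex : ∀ q : G ⧸ N, ∃ n : ℕ, ∃ g : G, (g : G ⧸ N) = q ∧ l g = n := by
    intro q
    induction q using QuotientGroup.induction_on with
    | H g => exact ⟨l g, g, rfl, rfl⟩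
  set l' : G ⧸ N → ℕ := fun q => Nat.find (hex q) with hl'
  have hmin : ∀ g : G, l' (g : G ⧸ N) ≤ l g := fun g => Nat.find_min' (hex _) ⟨g, rfl, rfl⟩
  have hspec : ∀ q : G ⧸ N, ∃ g : G, (g : G ⧸ N) = q ∧ l g = l' q := fun q =>
    Nat.find_spec (hex q)
  refine ⟨l', κ, ?_, ?_, ?_, ?_⟩
  · have := hmin 1
    rw [h1, QuotientGroup.mk_one] at this
    omega
  · intro p q
    obtain ⟨g, rfl, hg⟩ := hspec p
    obtain ⟨g', rfl, hg'⟩ := hspec q
    have a1 := hmin (g * g')
    have a2 := h2 g g'
    rw [QuotientGroup.mk_mul] at a1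
    omega
  · intro p
    obtain ⟨g, rfl, hg⟩ := hspec p
    have a1 := hmin g⁻¹
    have a2 := h3 g
    rw [QuotientGroup.mk_inv] at a1
    rw [← hg]
    omega
  · intro T
    obtain ⟨S, hS, hS'⟩ := h4 T
    refine ⟨(fun g : G => (g : G ⧸ N)) '' S, hS.image _, ?_⟩
    rintro w ⟨c, hc⟩
    induction w using QuotientGroup.induction_on with
    | H g =>
      obtain ⟨B, hB⟩ : BddAbove ((fun k : N => l (k : G)) '' Set.univ) :=
        (Set.toFinite _).bddAbove
      obtain ⟨x, hx⟩ := hS' g ⟨c + B, fun n => by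
        obtain ⟨u, hu1, hu2⟩ := hspec ((g : G ⧸ N) ^ n)
        have hu3 : u⁻¹ * g ^ n ∈ N := by
          rw [← QuotientGroup.eq, hu1, QuotientGroup.mk_pow]
        have a1 := h2 u (u⁻¹ * g ^ n)
        rw [mul_inv_cancel_left] at a1
        have a2 : l (u⁻¹ * g ^ n) ≤ B := hB ⟨⟨_, hu3⟩, trivial, rfl⟩
        have a3 := hc n
        omega⟩
      exact ⟨(x : G ⧸ N), _, hx, rfl⟩

/-- Extensions with finite kernel of automatic groups are automatic. -/
theorem automatic_of_finite_ker {G : Type} [Group G] (N : Subgroup G) [N.Normal] [Finite N]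
    (h : Automatic (G ⧸ N)) : Automatic G := by
  classical
  obtain ⟨A, hA, π, L, hst⟩ := h
  have hft := ftp_of_structure hst
  obtain ⟨hL, hs, _⟩ := hst
  set π' : A ⊕ N → G := Sum.elim (fun a => (π a).out) (fun k => (k : G)) with hπ'
  set M : Language N := {v : List N | ∃ k, v = [k]} with hM
  have hMreg : M.IsRegular := by
    refine regular_of_data (S := List N) _ (fun x => x) {x | x.length ≤ 1}
      (List.finite_length_le N 1) ?_ ?_
    · rintro x y ⟨k, hk⟩
      have := congrArg List.length hk
      rw [List.length_append, List.length_singleton] at this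
      show x.length ≤ 1
      omega
    · intro x x' hx y hy
      have : x = x' := hx
      rw [← this]
      exact hy
  have hval : ∀ u : List A, ((val π' (u.map Sum.inl) : G) : G ⧸ N) = val π u := by
    intro u
    induction u with
    | nil => rfl
    | cons a u ih =>
      have e1 : val π' ((a :: u).map Sum.inl) = (π a).out * val π' (u.map Sum.inl) := by
        simp [val, hπ']
      have e2 : val π (a :: u) = π a * val π u := by simp [val]
      rw [e1, QuotientGroup.mk_mul, ih, e2, QuotientGroup.out_eq']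
  have hvalN : ∀ v : List N, ((val π' (v.map Sum.inr) : G) : G ⧸ N) = 1 := by
    intro v
    induction v with
    | nil => rfl
    | cons a u ih =>
      have e1 : val π' ((a :: u).map Sum.inr) = (a : G) * val π' (u.map Sum.inr) := by
        simp [val, hπ']
      rw [e1, QuotientGroup.mk_mul, ih, mul_one]
      exact (QuotientGroup.eq_one_iff _).2 a.2
  refine ⟨A ⊕ N, inferInstance, π', prodLang L M,
    structure_of_ftp (prodLang_regular hL hMreg) ?_ ?_⟩
  · intro g
    obtain ⟨u, hu, hug⟩ := hs (g : G ⧸ N)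
    have h5 : (val π' (u.map Sum.inl))⁻¹ * g ∈ N := by
      rw [← QuotientGroup.eq, hval, hug]
    refine ⟨u.map Sum.inl ++ [⟨_, h5⟩].map Sum.inr, ⟨u, hu, _, ⟨_, rfl⟩, rfl⟩, ?_⟩
    rw [SLA.val_append]
    have e1 : val π' (([⟨_, h5⟩] : List N).map Sum.inr) = (val π' (u.map Sum.inl))⁻¹ * g := by
      simp [val, hπ']
    rw [e1]
    group
  · intro g
    obtain ⟨D, hD, hd⟩ := hft (g : G ⧸ N)
    refine ⟨(fun x : G => (x : G ⧸ N)) ⁻¹' D, ?_, ?_⟩
    · refine hD.preimage' ?_
      intro q _
      induction q using QuotientGroup.induction_on with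
      | H g0 =>
        refine ((Set.toFinite (Set.range (fun k : N => g0 * (k : G))))).subset ?_
        intro x hx
        have h6 : g0⁻¹ * x ∈ N := by
          rw [← QuotientGroup.eq]
          exact (show (x : G ⧸ N) = g0 from hx).symm
        exact ⟨⟨_, h6⟩, by simp⟩
    · rintro w ⟨u, hu, v, hv, rfl⟩ w' ⟨u', hu', v', hv', rfl⟩ hww n
      have key : ∀ (u : List A) (v : List N),
          ((val π' ((u.map Sum.inl ++ v.map Sum.inr).take n) : G) : G ⧸ N) =
          val π (u.take n) := by
        intro u v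
        rw [List.take_append, SLA.val_append, ← List.map_take, ← List.map_take,
          QuotientGroup.mk_mul, hval, hvalN, mul_one]
      have h7 : val π u * (g : G ⧸ N) = val π u' := by
        have := congrArg (fun x : G => (x : G ⧸ N)) hww
        simp only [QuotientGroup.mk_mul, SLA.val_append, hval, hvalN, mul_one] at this
        exact this
      have h8 := hd u hu u' hu' h7 n
      show (((val π' ((u.map Sum.inl ++ v.map Sum.inr).take n))⁻¹ *
        val π' ((u'.map Sum.inl ++ v'.map Sum.inr).take n) : G) : G ⧸ N) ∈ D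
      rw [QuotientGroup.mk_mul, QuotientGroup.mk_inv, key, key]
      exact h8

end Pool.Agent.VH
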