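import Pool.Agent.VH.FC4
import Pool.Agent.HYP.PFin
import Pool.Agent.HYP.Ash
import Pool.Agent.VH.FC6
import Pool.Agent.VH.ClsDef
import Pool.Agent.VH.FinKer
import Pool.Agent.VNP.AsFP
import Pool.Agent.VNP.AsProd
import Pool.Agent.SLA.ProdA
import Pool.Agent.SLA.ProdS
import Pool.Agent.SLA.FreeProdA
import Pool.Agent.SLA.FreeProd3
import Pool.Agent.REL.CPlen
import Pool.Agent.REL.HypR
import Pool.Agent.RET.RetAut
import Pool.Agent.RET.Fcl
import Pool.Agent.REL.Asd
/-!
# A class of groups in which the groups with a finite complete ShortLex system are automatic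
-/
namespace Pool.Agent.VH
open Subgroup Pool.Agent.SLX Pool.Agent.SLA Monoid

/-- The groups which are hyperbolic relative to no subgroup have a roughly geodesic hyperbolic
length function. -/
theorem hyp_rhyp {Q : Type} [Group Q] (h : Hyp Q) : HYP.RHyp Q := by
  obtain ⟨A, _, _, _, ⟨L⟩⟩ := REL.exists_plen _ h
  exact REL.rhyp_of_plen L

/-- Virtual direct products of hyperbolic groups have finite asymptotic dimension. -/
theorem vph_asdim {Q : Type} [Group Q] (hQ : VProdHyp Q) : ∃ D, VNP.AsdimLE Q D := by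
  obtain ⟨κ, _, P, _, Q0, hP, _, ⟨e⟩⟩ := hQ
  obtain ⟨D, hD⟩ := SLA.asdimLE_pi P fun i => HYP.rhyp_asdim (hyp_rhyp (hP i))
  exact VNP.asdimLE_of_fi Q0 (VNP.asdimLE_of_injective e.toMonoidHom e.injective hD)

/-- Normal subgroups of finite rank with a quotient that is virtually a product of hyperbolic
groups. -/
theorem smallR_asdim {G : Type} [Group G] (N : Subgroup G) [N.Normal] (hN : SmallR N)
    (hQ : VProdHyp (G ⧸ N)) : ∃ D, VNP.AsdimLE G D := by
  obtain ⟨S, r, h1, h2, h3, h4⟩ := hN
  obtain ⟨D, hD⟩ := vph_asdim hQ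
  exact ln_asdim N hD S h1 h2 r h4

/-- Small normal subgroups have a solvable subgroup of finite index and finite rank. -/
theorem small_rank {G : Type} [Group G] (h : FCl G) (N : Subgroup G) (hN : Small N) :
    ∃ (S : Subgroup G) (r : ℕ), S ≤ N ∧ S.relIndex N ≠ 0 ∧ Group.IsSolvable S ∧
      ∀ K : Subgroup G, K ≤ S → K.FG → ∃ T : Finset G, T.card ≤ r ∧
        Subgroup.closure (T : Set G) = K := by
  rcases hN with hN | ⟨hr, ⟨D, hD⟩, hE⟩
  · exact hN
  · exact fcl_rf_rank h hr hD N hE

theorem smallR_automatic {G : Type} [Group G] [Group.FG G] (h : FCl G) (N : Subgroup G)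
    [N.Normal] (hN : SmallR N) (hQ : VProdHyp (G ⧸ N)) : Automatic G := by
  obtain ⟨κ, _, P, _, Q0, hP, _, ⟨e⟩⟩ := hQ
  obtain ⟨S, r, h1, h2, h3, h4⟩ := hN
  exact HYP.fcl_prodhyp_automatic h N S h1 h2 h3 r h4 P (fun i => hyp_rhyp (hP i)) Q0 e

theorem cyc_automatic {G : Type} [Group G] [Group.FG G] (h : FCl G) {a : G} (ha : Commens a)
    (hq : ∀ M : ℕ, 0 < M → ∀ [(zpowers (a ^ M)).Normal], VProdHyp (G ⧸ zpowers (a ^ M))) :
    Automatic G := by
  obtain ⟨M, hM, hn⟩ := fcl_commens h ha
  refine smallR_automatic h (zpowers (a ^ M))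
    ⟨zpowers (a ^ M), 1, le_rfl, ?_, ?_, ?_⟩ (hq M hM)
  · rw [relIndex_self]
    exact one_ne_zero
  · exact Group.isSolvable_of_comm (fun x y => IsMulCommutative.is_comm.comm x y)
  · exact fun K hK _ => zpowers_rank (a ^ M) K hK

/-- The projection of a free product to a factor. -/
theorem exists_proj {ι : Type} (M : ι → Type) [∀ i, Group (M i)] (i : ι) :
    ∃ ρ : CoprodI M →* M i, ∀ m, ρ (CoprodI.of m) = m := by
  classical
  exact ⟨CoprodI.lift (Pi.mulSingle i (MonoidHom.id (M i))), CoprodI.of_leftInverse i⟩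

theorem fg_factor {ι : Type} (M : ι → Type) [∀ i, Group (M i)] (h : Group.FG (CoprodI M))
    (i : ι) : Group.FG (M i) := by
  obtain ⟨ρ, hρ⟩ := exists_proj M i
  exact Group.fg_of_surjective (f := ρ) (fun m => ⟨_, hρ m⟩)

theorem fg_of_gen {G : Type} [Group G] {H : Subgroup G}
    (h : ∃ S : Set G, S.Finite ∧ Subgroup.closure S = H) : Group.FG H := by
  obtain ⟨S, hSf, hSc⟩ := h
  exact (Group.fg_iff_subgroup_fg _).mpr ((Subgroup.fg_iff _).mpr ⟨S, hSc, hSf⟩)

/-- The finitely generated groups of the class have finite asymptotic dimension. -/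
theorem cls_asdim {G : Type} [Group G] (hC : Cls G) :
    Group.FG G → ∃ D, VNP.AsdimLE G D := by
  induction hC with
  | aut hD hA => exact fun _ => hD
  | ext N hN hQ => exact fun _ => smallR_asdim N hN hQ
  | cyc hD a ha hq => exact fun _ => hD
  | @free ι _ M _ h ih =>
    intro hfg
    have hfgi : ∀ i, Group.FG (M i) := fg_factor M hfg
    choose D hD using fun i => ih i (hfgi i)
    obtain ⟨D', hD'⟩ : BddAbove (Set.range D) := (Set.finite_range D).bddAbove
    exact ⟨_, VNP.asdimLE_freeProd (D := D') fun i => VNP.asdimLE_mono (hD' ⟨i, rfl⟩) (hD i)⟩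
  | @prod G K _ _ hG hK ihG ihK =>
    intro hfg
    obtain ⟨D1, h1⟩ := ihG (Group.fg_of_surjective (f := MonoidHom.fst G K) Prod.fst_surjective)
    obtain ⟨D2, h2⟩ := ihK (Group.fg_of_surjective (f := MonoidHom.snd G K) Prod.snd_surjective)
    exact ⟨_, VNP.asdimLE_prod h1 h2⟩
  | fker N h ih =>
    intro hfg
    obtain ⟨D, hD⟩ := ih inferInstance
    exact ⟨_, VNP.asdimLE_ext N (VNP.asdimLE_finite N) hD⟩
  | fi H h ih =>
    intro hfg
    obtain ⟨D, hD⟩ := ih inferInstance
    exact VNP.asdimLE_of_fi H hD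
  | rel P hP h ih =>
    intro hfg
    obtain ⟨A, _, _, hS, ⟨L⟩⟩ := REL.exists_plen P hP
    exact REL.plen_asdim L fun i => ih i (fg_of_gen (hS i))
  | iso e h ih =>
    intro hfg
    obtain ⟨D, hD⟩ := ih (Group.fg_of_surjective (f := e.symm.toMonoidHom) e.symm.surjective)
    exact ⟨D, VNP.asdimLE_equiv e hD⟩

/-- The finitely generated groups of the class with few conjugacy classes are automatic. -/
theorem cls_automatic {G : Type} [Group G] (hC : Cls G) :
    Group.FG G → FCl G → Automatic G := by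
  induction hC with
  | aut hD hA => exact fun _ _ => hA
  | ext N hN hQ => exact fun hfg h => smallR_automatic h N hN hQ
  | cyc hD a ha hq => exact fun hfg h => cyc_automatic h ha hq
  | @free ι _ M _ h ih =>
    intro hfg hF
    refine automatic_freeProd M fun i => ih i (fg_factor M hfg i) ?_
    obtain ⟨ρ, hρ⟩ := exists_proj M i
    exact fcl_retract CoprodI.of ρ hρ hF
  | @prod G K _ _ hG hK ihG ihK =>
    intro hfg hF
    refine automatic_prod' (ihG ?_ ?_) (ihK ?_ ?_)
    · exact Group.fg_of_surjective (f := MonoidHom.fst G K) Prod.fst_surjective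
    · exact fcl_retract (MonoidHom.inl G K) (MonoidHom.fst G K) (fun _ => rfl) hF
    · exact Group.fg_of_surjective (f := MonoidHom.snd G K) Prod.snd_surjective
    · exact fcl_retract (MonoidHom.inr G K) (MonoidHom.snd G K) (fun _ => rfl) hF
  | fker N h ih =>
    intro hfg hF
    exact automatic_of_finite_ker N (ih inferInstance (fcl_ker N hF))
  | fi H h ih =>
    intro hfg hF
    exact automatic_of_fi H (ih inferInstance (fcl_fi H hF))
  | rel P hP h ih =>
    intro hfg hF
    obtain ⟨A, hAf, hA, hS, ⟨L⟩⟩ := REL.exists_plen P hP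
    exact RET.plen_automatic hAf hA L fun i =>
      ih i (fg_of_gen (hS i)) (RET.fcl_periph L hF i)
  | iso e h ih =>
    intro hfg hF
    exact automatic_of_equiv e (ih
      (Group.fg_of_surjective (f := e.symm.toMonoidHom) e.symm.surjective) (fcl_equiv e.symm hF))

theorem fg_of_system' {G : Type} [Group G] (h : HasSystem G) : Group.FG G := by
  obtain ⟨A, hA, hlin, π, E, hE⟩ := h
  obtain ⟨F⟩ := VN.exists_NF hE
  exact VN.fg_of_nf F

/-- **The groups of the class with a finite complete ShortLex system are automatic.** -/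
theorem cls_main {G : Type} [Group G] (hC : Cls G) (h : HasSystem G) : Automatic G := by
  have hfg := fg_of_system' h
  obtain ⟨D, hD⟩ := cls_asdim hC hfg
  exact cls_automatic hC hfg (fcl_of_system h hD)

theorem smallTop_asdim {G : Type} [Group G] (hN : Small (⊤ : Subgroup G)) :
    ∃ D, VNP.AsdimLE G D := by
  rcases hN with ⟨S, r, _, h2, h3, h4⟩ | ⟨_, hD, _⟩
  · rw [relIndex_top_right] at h2
    have : S.FiniteIndex := ⟨h2⟩
    obtain ⟨D, hD⟩ := VNP.asdimLE_solvRank _ (VNP.rank_subgroup S _ h4)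
    exact VNP.asdimLE_of_fi S hD
  · exact hD

theorem smallTop_sla {G : Type} [Group G] [Group.FG G] (h : FCl G)
    (hN : Small (⊤ : Subgroup G)) : ShortLexAutomatic G := by
  obtain ⟨S, r, _, h2, h3, h4⟩ := small_rank h _ hN
  rw [relIndex_top_right] at h2
  have : S.FiniteIndex := ⟨h2⟩
  exact fcl_sla h S h3 r h4

theorem clsS_asdim {G : Type} [Group G] (hC : ClsS G) :
    Group.FG G → ∃ D, VNP.AsdimLE G D := by
  induction hC with
  | sla hD hA => exact fun _ => hD
  | small hN => exact fun _ => smallTop_asdim hN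
  | @free ι _ M _ h ih =>
    intro hfg
    have hfgi : ∀ i, Group.FG (M i) := fg_factor M hfg
    choose D hD using fun i => ih i (hfgi i)
    obtain ⟨D', hD'⟩ : BddAbove (Set.range D) := (Set.finite_range D).bddAbove
    exact ⟨_, VNP.asdimLE_freeProd (D := D') fun i => VNP.asdimLE_mono (hD' ⟨i, rfl⟩) (hD i)⟩
  | @prod G K _ _ hG hK ihG ihK =>
    intro hfg
    obtain ⟨D1, h1⟩ := ihG (Group.fg_of_surjective (f := MonoidHom.fst G K) Prod.fst_surjective)
    obtain ⟨D2, h2⟩ := ihK (Group.fg_of_surjective (f := MonoidHom.snd G K) Prod.snd_surjective)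
    exact ⟨_, VNP.asdimLE_prod h1 h2⟩
  | iso e h ih =>
    intro hfg
    obtain ⟨D, hD⟩ := ih (Group.fg_of_surjective (f := e.symm.toMonoidHom) e.symm.surjective)
    exact ⟨D, VNP.asdimLE_equiv e hD⟩

theorem clsS_automatic {G : Type} [Group G] (hC : ClsS G) :
    Group.FG G → FCl G → ShortLexAutomatic G := by
  induction hC with
  | sla hD hA => exact fun _ _ => hA
  | small hN => exact fun hfg h => smallTop_sla h hN
  | @free ι _ M _ h ih =>
    intro hfg hF
    refine freeProd M fun i => ih i (fg_factor M hfg i) ?_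
    obtain ⟨ρ, hρ⟩ := exists_proj M i
    exact fcl_retract CoprodI.of ρ hρ hF
  | @prod G K _ _ hG hK ihG ihK =>
    intro hfg hF
    refine sla_prod (ihG ?_ ?_) (ihK ?_ ?_)
    · exact Group.fg_of_surjective (f := MonoidHom.fst G K) Prod.fst_surjective
    · exact fcl_retract (MonoidHom.inl G K) (MonoidHom.fst G K) (fun _ => rfl) hF
    · exact Group.fg_of_surjective (f := MonoidHom.snd G K) Prod.snd_surjective
    · exact fcl_retract (MonoidHom.inr G K) (MonoidHom.snd G K) (fun _ => rfl) hF
  | iso e h ih =>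
    intro hfg hF
    exact sla_equiv e (ih
      (Group.fg_of_surjective (f := e.symm.toMonoidHom) e.symm.surjective) (fcl_equiv e.symm hF))

/-- **The groups of the class with a finite complete ShortLex system are ShortLex-automatic.** -/
theorem clsS_main {G : Type} [Group G] (hC : ClsS G) (h : HasSystem G) : ShortLexAutomatic G := by
  have hfg := fg_of_system' h
  obtain ⟨D, hD⟩ := clsS_asdim hC hfg
  exact clsS_automatic hC hfg (fcl_of_system h hD)

end Pool.Agent.VH
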