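import Pool.Agent.VH.Normal
import Pool.Agent.VS.TorsionFree
/-!
# Commutators of finite conjugacy class
-/
namespace Pool.Agent.VH
open Subgroup Pool.Agent.SLX

theorem class_finite_of_fi {G : Type} [Group G] (z : G)
    (h : (centralizer ({z} : Set G)).FiniteIndex) :
    (Set.range (fun g : G => g⁻¹ * z * g)).Finite := by
  classical
  have h1 : Finite (G ⧸ centralizer ({z} : Set G)) := inferInstance
  refine (Set.finite_range
    (fun q : G ⧸ centralizer ({z} : Set G) => q.out * z * q.out⁻¹)).subset ?_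
  rintro _ ⟨g, rfl⟩
  refine ⟨((g⁻¹ : G) : G ⧸ centralizer ({z} : Set G)), ?_⟩
  set q : G := (((g⁻¹ : G) : G ⧸ centralizer ({z} : Set G))).out with hq
  have h2 : q⁻¹ * g⁻¹ ∈ centralizer ({z} : Set G) := by
    rw [← QuotientGroup.eq, hq, QuotientGroup.out_eq']
  rw [mem_centralizer_singleton_iff] at h2
  show q * z * q⁻¹ = g⁻¹ * z * g
  have h3 : g⁻¹ = q * (q⁻¹ * g⁻¹) := by group
  have h4 : g⁻¹ * z * g = q * ((q⁻¹ * g⁻¹) * z) * g := by group
  rw [h4, h2]
  group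

/-- A commutator that commutes with both elements and has a centralizer of finite index has finite
order. -/
theorem ln_com {G : Type} [Group G] (F : LN G) {D : ℕ} (hD : VNP.AsdimLE G D) (a b z : G)
    (hz : z = a⁻¹ * b⁻¹ * a * b) (ha : Commute a z) (hb : Commute b z)
    (hfc : (centralizer ({z} : Set G)).FiniteIndex) : IsOfFinOrder z :=
  isOfFinOrder_iff_pow_eq_one.2 (fc_torsion F (conj_short F (asd_of_asdim F hD)) a b z hz ha.eq
    hb.eq (class_finite_of_fi z hfc))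

/-- Normal virtually solvable subgroups of finite Pruefer rank, with a torsion free abelian
subgroup of finite index. -/
theorem ln_virt_normal_tf {G : Type} [Group G] (F : LN G) (N : Subgroup G) [N.Normal]
    {D : ℕ} (hQ : VNP.AsdimLE (G ⧸ N) D) (S : Subgroup G) (hSN : S ≤ N)
    (hSfi : S.relIndex N ≠ 0) [hSs : Group.IsSolvable S] (r : ℕ)
    (hr : ∀ K : Subgroup G, K ≤ S → K.FG → ∃ T : Finset G, T.card ≤ r ∧
      Subgroup.closure (T : Set G) = K) :
    N.FG ∧ ∃ A : Subgroup G, A.Normal ∧ A ≤ N ∧ A.relIndex N ≠ 0 ∧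
      (∀ a ∈ A, ∀ b ∈ A, a * b = b * a) ∧ A.FG ∧ (∀ a ∈ A, IsOfFinOrder a → a = 1) ∧
      (centralizer (A : Set G)).FiniteIndex := by
  obtain ⟨A, hAn, hAN, hAfi, hAc, hAfg, hAC⟩ := ln_virt_normal F N hQ S hSN hSfi r hr
  obtain ⟨A', hA'n, hA'A, hA'fi, hA'fg, hA'tf⟩ := VS.exists_tf A hAfg hAc
  refine ⟨?_, A', hA'n, hA'A.trans hAN, ?_,
    fun a ha b hb => hAc a (hA'A ha) b (hA'A hb), hA'fg, hA'tf, ?_⟩
  · obtain ⟨T, hT⟩ := hAfg
    obtain ⟨T', _, hT'⟩ := VS.gen_of_fi A N hAN hAfi T hT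
    exact ⟨T', hT'⟩
  · rw [← relIndex_mul_relIndex A' A N hA'A hAN]
    exact mul_ne_zero hA'fi hAfi
  · have h1 : centralizer (A : Set G) ≤ centralizer (A' : Set G) :=
      centralizer_le (fun x hx => hA'A hx)
    exact finiteIndex_of_le h1

/-- The whole group has finite asymptotic dimension. -/
theorem ln_asdim {G : Type} [Group G] (N : Subgroup G) [N.Normal]
    {D : ℕ} (hQ : VNP.AsdimLE (G ⧸ N) D) (S : Subgroup G) (hSN : S ≤ N)
    (hSfi : S.relIndex N ≠ 0) [hSs : Group.IsSolvable S] (r : ℕ)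
    (hr : ∀ K : Subgroup G, K ≤ S → K.FG → ∃ T : Finset G, T.card ≤ r ∧
      Subgroup.closure (T : Set G) = K) : ∃ D' : ℕ, VNP.AsdimLE G D' := by
  obtain ⟨D1, hD1⟩ := VNP.asdimLE_solvRank _ (VNP.rank_subgroup S _ hr)
  have hD2 : VNP.AsdimLE (S.subgroupOf N) D1 :=
    VNP.asdimLE_of_injective (subgroupOfEquivOfLe hSN).toMonoidHom
      (subgroupOfEquivOfLe hSN).injective hD1
  have hfi : (S.subgroupOf N).FiniteIndex := ⟨hSfi⟩
  obtain ⟨D3, hD3⟩ := VNP.asdimLE_of_fi (S.subgroupOf N) hD2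
  exact ⟨_, VNP.asdimLE_ext N hD3 hQ⟩

end Pool.Agent.VH
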