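import Pool.Agent.VH.FC3
import Pool.Agent.VH.ClsDef
/-!
# Commensurated infinite cyclic subgroups
-/
namespace Pool.Agent.VH
open Subgroup Pool.Agent.SLX

section
variable {G : Type} [Group G]

theorem zpow_inj {a : G} (ha : ¬ IsOfFinOrder a) {m n : ℤ} (h : a ^ m = a ^ n) : m = n :=
  (injective_zpow_iff_not_isOfFinOrder.2 ha) h

theorem conj_zpow' (g a : G) (m : ℤ) (k : ℤ) (n : ℤ) (h : g * a ^ m * g⁻¹ = a ^ n) :
    g * a ^ (m * k) * g⁻¹ = a ^ (n * k) := by
  rw [zpow_mul, zpow_mul, ← h, conj_zpow]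

/-- If `|m| = |n|` whenever `g a^m g⁻¹ = a^n` then some power of `a` generates a normal
subgroup. -/
theorem commens_normal [hG : Group.FG G] {a : G} (ha : Commens a)
    (hu : ∀ (g : G) (m n : ℤ), m ≠ 0 → n ≠ 0 → g * a ^ m * g⁻¹ = a ^ n → n = m ∨ n = -m) :
    ∃ M : ℕ, 0 < M ∧ (zpowers (a ^ M)).Normal := by
  classical
  obtain ⟨S, hS⟩ := (Group.fg_iff_subgroup_fg (⊤ : Subgroup G)).1 ((Group.fg_def.1 hG) |>
    fun h => (Group.fg_iff_subgroup_fg _).2 h)
  choose m n hm hn hmn using ha.2
  set M : ℕ := ∏ s ∈ S, (m s).natAbs with hM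
  have hMpos : 0 < M := Finset.prod_pos fun s _ => Int.natAbs_pos.2 (hm s)
  have hdvd : ∀ s ∈ S, ∃ k : ℤ, (M : ℤ) = m s * k := by
    intro s hs
    have h1 : (m s).natAbs ∣ M := Finset.dvd_prod_of_mem (fun s => (m s).natAbs) hs
    have h2 : m s ∣ (M : ℤ) := by
      rw [← Int.natAbs_dvd]
      exact_mod_cast h1
    exact h2
  have hgen : ∀ s ∈ S, s * a ^ (M : ℤ) * s⁻¹ = a ^ (M : ℤ) ∨
      s * a ^ (M : ℤ) * s⁻¹ = a ^ (-(M : ℤ)) := by
    intro s hs
    obtain ⟨k, hk⟩ := hdvd s hs
    have h1 := conj_zpow' s a (m s) k (n s) (hmn s)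
    rw [← hk] at h1
    rcases hu s (m s) (n s) (hm s) (hn s) (hmn s) with h2 | h2
    · left
      rw [h1, h2, ← hk]
    · right
      rw [h1, h2, hk, neg_mul]
  have hall : ∀ g : G, g * a ^ (M : ℤ) * g⁻¹ = a ^ (M : ℤ) ∨
      g * a ^ (M : ℤ) * g⁻¹ = a ^ (-(M : ℤ)) := by
    intro g
    have hg : g ∈ closure (S : Set G) := by
      rw [hS]
      trivial
    induction hg using closure_induction with
    | mem x hx => exact hgen x hx
    | one => left; group
    | mul x y _ _ hx hy =>
      have e : x * y * a ^ (M : ℤ) * (x * y)⁻¹ = x * (y * a ^ (M : ℤ) * y⁻¹) * x⁻¹ := by group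
      have e2 : x * a ^ (-(M : ℤ)) * x⁻¹ = (x * a ^ (M : ℤ) * x⁻¹)⁻¹ := by group
      rw [e]
      rcases hy with h | h <;> rw [h]
      · exact hx
      · rw [e2]
        rcases hx with h' | h' <;> rw [h']
        · right; group
        · left; group
    | inv x _ hx =>
      rcases hx with h | h
      · left
        have : a ^ (M : ℤ) = x⁻¹ * (x * a ^ (M : ℤ) * x⁻¹) * x := by group
        rw [h] at this
        rw [inv_inv]
        exact this.symm
      · right
        have : a ^ (M : ℤ) = x⁻¹ * (x * a ^ (M : ℤ) * x⁻¹) * x := by group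
        rw [h] at this
        have e3 : x⁻¹ * a ^ (-(M : ℤ)) * x = (x⁻¹ * a ^ (M : ℤ) * x)⁻¹ := by group
        rw [e3] at this
        have e4 : (a ^ (M : ℤ))⁻¹ = x⁻¹ * a ^ (M : ℤ) * x := by
          rw [← inv_inv (x⁻¹ * a ^ (M : ℤ) * x), ← this]
        rw [inv_inv, zpow_neg, e4]
  refine ⟨M, hMpos, ⟨?_⟩⟩
  rintro _ ⟨k, rfl⟩ g
  have h1 : g * (a ^ M) ^ k * g⁻¹ = (g * a ^ (M : ℤ) * g⁻¹) ^ k := by
    rw [conj_zpow, zpow_natCast]
  show g * (a ^ M) ^ k * g⁻¹ ∈ zpowers (a ^ M)
  rw [h1]
  rcases hall g with h | h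
  · rw [h, zpow_natCast]
    exact zpow_mem (mem_zpowers _) k
  · rw [h, zpow_neg, zpow_natCast]
    exact zpow_mem (inv_mem (mem_zpowers _)) k

/-- Logarithmic growth of the powers of `a` if `g a^m g⁻¹ = a^n` with `|n| < |m|`. -/
theorem commens_growth (l : G → ℕ) (hone : l 1 = 0) (hmul : ∀ g h, l (g * h) ≤ l g + l h)
    {a g : G} {m n : ℤ} (hm : m ≠ 0) (h : g * a ^ m * g⁻¹ = a ^ n)
    (hlt : n.natAbs < m.natAbs) (k : ℕ) :
    ∃ c : ℕ, ∀ N : ℤ, k * l (a ^ N) ≤ N.natAbs + c := by
  classical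
  set K : ℕ := l g⁻¹ + l g + ∑ r ∈ Finset.range m.natAbs, l (a ^ (r : ℤ)) with hK
  set B : ℕ := (k * K + m.natAbs + 1) * m.natAbs with hB
  set c : ℕ := ∑ r ∈ Finset.Icc (-(B : ℤ)) B, k * l (a ^ r) with hc
  refine ⟨c, ?_⟩
  have key : ∀ (t : ℕ) (N : ℤ), N.natAbs = t → k * l (a ^ N) ≤ N.natAbs + c := by
    intro t
    induction t using Nat.strong_induction_on with
    | _ t ih =>
      intro N hN
      by_cases hsmall : N.natAbs ≤ B
      · have h1 : N ∈ Finset.Icc (-(B : ℤ)) B := by
          rw [Finset.mem_Icc]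
          omega
        have h2 : k * l (a ^ N) ≤ c :=
          Finset.single_le_sum (f := fun r : ℤ => k * l (a ^ r)) (fun _ _ => Nat.zero_le _) h1
        omega
      · push Not at hsmall
        -- `N = m q + r`
        set q : ℤ := N / m with hq
        set r : ℤ := N % m with hr
        have hNqr : N = m * q + r := (Int.mul_ediv_add_emod N m).symm
        have hr0 : 0 ≤ r := Int.emod_nonneg N hm
        have hr1 : r < (m.natAbs : ℤ) := by
          have := Int.emod_lt_abs N hm
          rwa [Int.abs_eq_natAbs] at this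
        have hqN : m.natAbs * q.natAbs ≤ N.natAbs + m.natAbs := by
          have h1 : (m * q).natAbs = m.natAbs * q.natAbs := Int.natAbs_mul m q
          have h2 : m * q = N - r := by omega
          rw [← h1, h2]
          omega
        have hconj : a ^ (m * q) = g⁻¹ * a ^ (n * q) * g := by
          have := conj_zpow' g a m q n h
          rw [← this]
          group
        have hl : l (a ^ N) ≤ l (a ^ (n * q)) + K := by
          rw [hNqr, zpow_add, hconj]
          have h1 := hmul (g⁻¹ * a ^ (n * q) * g) (a ^ r)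
          have h2 := hmul (g⁻¹ * a ^ (n * q)) g
          have h3 := hmul g⁻¹ (a ^ (n * q))
          have h4 : l (a ^ r) ≤ ∑ r ∈ Finset.range m.natAbs, l (a ^ (r : ℤ)) := by
            have h5 : r.toNat ∈ Finset.range m.natAbs := by
              rw [Finset.mem_range]
              omega
            have h6 := Finset.single_le_sum (f := fun r : ℕ => l (a ^ (r : ℤ)))
              (fun _ _ => Nat.zero_le _) h5
            rw [Int.toNat_of_nonneg hr0] at h6
            exact h6
          omega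
        have hn1 : (n * q).natAbs = n.natAbs * q.natAbs := Int.natAbs_mul n q
        have hq1 : n.natAbs * q.natAbs + q.natAbs ≤ m.natAbs * q.natAbs := by
          have : (n.natAbs + 1) * q.natAbs ≤ m.natAbs * q.natAbs :=
            Nat.mul_le_mul_right _ hlt
          rw [add_mul, one_mul] at this
          exact this
        have hm0 : 0 < m.natAbs := Int.natAbs_pos.2 hm
        have hNq : N.natAbs ≤ m.natAbs * q.natAbs + m.natAbs := by
          have h1 : (m * q).natAbs = m.natAbs * q.natAbs := Int.natAbs_mul m q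
          rw [← h1]
          omega
        have hq2 : k * K + m.natAbs < q.natAbs := by
          have h1 : (k * K + m.natAbs) * m.natAbs + m.natAbs < m.natAbs * q.natAbs + m.natAbs := by
            have h2 : (k * K + m.natAbs + 1) * m.natAbs =
                (k * K + m.natAbs) * m.natAbs + m.natAbs := by ring
            rw [← h2]
            omega
          have h3 : m.natAbs * (k * K + m.natAbs) < m.natAbs * q.natAbs := by
            rw [mul_comm m.natAbs (k * K + m.natAbs)]
            omega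
          exact Nat.lt_of_mul_lt_mul_left h3
        have hlt2 : (n * q).natAbs + k * K ≤ N.natAbs := by
          rw [hn1]
          omega
        have hlt3 : (n * q).natAbs < t := by
          rw [← hN]
          rw [hn1] at hlt2 ⊢
          omega
        have h7 := ih _ hlt3 (n * q) rfl
        have h8 : k * l (a ^ N) ≤ k * l (a ^ (n * q)) + k * K := by
          rw [← mul_add]
          exact Nat.mul_le_mul_left _ hl
        omega
  intro N
  exact key _ N rfl

/-- Conjugation changes the exponents only by numbers coprime to `p`, except for the finitely many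
primes that occur for the generators. -/
theorem commens_primes [hG : Group.FG G] {a : G} (ha : Commens a) :
    ∃ P : ℕ, P ≠ 0 ∧ ∀ p : ℕ, p.Prime → ¬ p ∣ P → ∀ g : G, ∃ m n : ℤ,
      ¬ (p : ℤ) ∣ m ∧ ¬ (p : ℤ) ∣ n ∧ g * a ^ m * g⁻¹ = a ^ n := by
  classical
  obtain ⟨S, hS⟩ := (Group.fg_iff_subgroup_fg (⊤ : Subgroup G)).1 ((Group.fg_def.1 hG) |>
    fun h => (Group.fg_iff_subgroup_fg _).2 h)
  choose m n hm hn hmn using ha.2
  refine ⟨∏ s ∈ S, ((m s).natAbs * (n s).natAbs), ?_, ?_⟩
  · exact Finset.prod_ne_zero_iff.2 fun s _ =>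
      mul_ne_zero (Int.natAbs_ne_zero.2 (hm s)) (Int.natAbs_ne_zero.2 (hn s))
  · intro p hp hpP g
    have hpi : Prime (p : ℤ) := Nat.prime_iff_prime_int.1 hp
    have hg : g ∈ closure (S : Set G) := by
      rw [hS]
      trivial
    induction hg using closure_induction with
    | mem x hx =>
      have h1 : (m x).natAbs * (n x).natAbs ∣ ∏ s ∈ S, ((m s).natAbs * (n s).natAbs) :=
        Finset.dvd_prod_of_mem (fun s => (m s).natAbs * (n s).natAbs) hx
      refine ⟨m x, n x, fun h => hpP ?_, fun h => hpP ?_, hmn x⟩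
      · exact (Dvd.dvd.mul_right (Int.natCast_dvd.1 h) _).trans h1
      · exact (Dvd.dvd.mul_left (Int.natCast_dvd.1 h) _).trans h1
    | one =>
      refine ⟨1, 1, ?_, ?_, by group⟩ <;>
      · intro h
        exact hpi.not_dvd_one h
    | mul x y _ _ hx hy =>
      obtain ⟨u, v, hu, hv, huv⟩ := hy
      obtain ⟨u', v', hu', hv', huv'⟩ := hx
      refine ⟨u * u', v' * v, ?_, ?_, ?_⟩
      · intro h
        rcases hpi.dvd_or_dvd h with h | h
        · exact hu h
        · exact hu' h
      · intro h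
        rcases hpi.dvd_or_dvd h with h | h
        · exact hv' h
        · exact hv h
      · have e1 : x * y * a ^ (u * u') * (x * y)⁻¹ = x * (y * a ^ (u * u') * y⁻¹) * x⁻¹ := by group
        rw [e1, conj_zpow' y a u u' v huv, mul_comm v u', conj_zpow' x a u' v v' huv']
    | inv x _ hx =>
      obtain ⟨u, v, hu, hv, huv⟩ := hx
      refine ⟨v, u, hv, hu, ?_⟩
      rw [← huv]
      group

/-- Commensurated infinite cyclic subgroups of groups with few conjugacy classes of small growth
contain normal subgroups of finite index. -/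
theorem fcl_commens [hG : Group.FG G] (h : FCl G) {a : G} (ha : Commens a) :
    ∃ M : ℕ, 0 < M ∧ (zpowers (a ^ M)).Normal := by
  classical
  refine commens_normal ha ?_
  obtain ⟨l, κ, h1, h2, h3, h4⟩ := h
  -- no relation with `|m| ≠ |n|`
  have key : ∀ (g : G) (m n : ℤ), m ≠ 0 → n ≠ 0 → g * a ^ m * g⁻¹ = a ^ n →
      ¬ n.natAbs < m.natAbs := by
    intro g m n hm hn hmn hlt
    obtain ⟨S, hS, hS'⟩ := h4 1
    have hex : ∀ k : ℕ, ∃ x : G, x⁻¹ * a ^ (k : ℤ) * x ∈ S := by
      intro k
      rcases Nat.eq_zero_or_pos k with rfl | hk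
      · apply hS'
        refine ⟨l 1, fun n => ?_⟩
        simp
      · apply hS'
        obtain ⟨c, hc⟩ := commens_growth l h1 h2 hm hmn hlt k
        refine ⟨c, fun N => ?_⟩
        have h5 := hc ((k : ℤ) * N)
        have h6 : ((k : ℤ) * N).natAbs = k * N := by
          rw [Int.natAbs_mul, Int.natAbs_natCast, Int.natAbs_natCast]
        rw [h6, zpow_mul, zpow_natCast (a ^ (k : ℤ))] at h5
        have h7 : k * l ((a ^ (k : ℤ)) ^ N) ≤ k * (1 * N + c) := by
          have h8 : c ≤ k * c := Nat.le_mul_of_pos_left c hk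
          rw [one_mul, mul_add]
          omega
        exact Nat.le_of_mul_le_mul_left h7 hk
    choose x hx using hex
    obtain ⟨P, hP, hPp⟩ := commens_primes ha
    -- infinitely many primes which do not divide `P`
    have hinf : {p : ℕ | p.Prime ∧ ¬ p ∣ P}.Infinite := by
      have h5 : {p : ℕ | p.Prime ∧ ¬ p ∣ P} = {p : ℕ | p.Prime} \ {p : ℕ | p ∣ P} := by
        ext p
        simp
      rw [h5]
      refine Nat.infinite_setOfPred_prime.sdiff ?_
      exact (Finset.finite_toSet P.divisors).subset fun p hp => by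
        rw [Finset.mem_coe, Nat.mem_divisors]
        exact ⟨hp, hP⟩
    obtain ⟨p, hp, p', hp', hne, heq⟩ := hinf.exists_ne_map_eq_of_mapsTo
      (f := fun p : ℕ => (x p)⁻¹ * a ^ (p : ℤ) * x p) (fun p _ => hx p) hS
    -- `a ^ p` and `a ^ p'` are conjugate
    have h6 : (x p' * (x p)⁻¹) * a ^ (p : ℤ) * (x p' * (x p)⁻¹)⁻¹ = a ^ (p' : ℤ) := by
      have h7 : (x p)⁻¹ * a ^ (p : ℤ) * x p = (x p')⁻¹ * a ^ (p' : ℤ) * x p' := heq
      have h8 : (x p' * (x p)⁻¹) * a ^ (p : ℤ) * (x p' * (x p)⁻¹)⁻¹ =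
          x p' * ((x p)⁻¹ * a ^ (p : ℤ) * x p) * (x p')⁻¹ := by group
      rw [h8, h7]
      group
    obtain ⟨u, v, hu, hv, huv⟩ := hPp p hp.1 hp.2 (x p' * (x p)⁻¹)
    have h9 := conj_zpow' _ a _ u _ h6
    have h10 := conj_zpow' _ a _ (p : ℤ) _ huv
    rw [mul_comm u (p : ℤ), h9] at h10
    have h11 : (p' : ℤ) * u = v * p := zpow_inj ha.1 h10
    have hpi : Prime (p : ℤ) := Nat.prime_iff_prime_int.1 hp.1
    have h12 : (p : ℤ) ∣ (p' : ℤ) * u := by
      rw [h11]
      exact dvd_mul_left _ _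
    rcases hpi.dvd_or_dvd h12 with h13 | h13
    · have h14 : p ∣ p' := by exact_mod_cast h13
      exact hne ((Nat.prime_dvd_prime_iff_eq hp.1 hp'.1).1 h14)
    · exact hu h13
  intro g m n hm hn hmn
  have e1 := key g m n hm hn hmn
  have e2 := key g⁻¹ n m hn hm (by rw [← hmn]; group)
  have e3 : n.natAbs = m.natAbs := by omega
  exact Int.natAbs_eq_natAbs_iff.1 e3

end

end Pool.Agent.VH
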