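import Mathlib
import Pool.Agent.VH.Alc
/-!
# Factors of free products
-/
namespace Pool.Agent.VH
open Monoid Monoid.CoprodI

section
variable {ι : Type} {M : ι → Type} [∀ i, Group (M i)]

private theorem emp_ne (i : ι) : Word.fstIdx (Word.empty : Word M) ≠ some i := by
  simp [Word.fstIdx, Word.empty]

open Classical in
/-- The first syllable from `M i`. -/
noncomputable def hd (i : ι) (x : CoprodI M) : CoprodI M :=
  of (Word.equivPair i (x • (Word.empty : Word M))).head

open Classical in
private theorem prod_smul_empty (w : Word M) : w.prod • (Word.empty : Word M) = w := by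
  have h := (Word.equiv (M := M)).right_inv w
  exact h

private theorem mem_rng (i : ι) (m : M i) : (of m : CoprodI M) ∈ (of : M i →* CoprodI M).range :=
  ⟨m, rfl⟩

theorem hd_mem (i : ι) (x : CoprodI M) : hd i x ∈ (of : M i →* CoprodI M).range := by
  unfold hd
  exact ⟨_, rfl⟩

theorem hd_eqv (i : ι) (m : M i) (x : CoprodI M) : hd i (of m * x) = of m * hd i x := by
  classical
  unfold hd
  rw [mul_smul]
  have h := Word.equivPair_smul_same m (x • (Word.empty : Word M))
  rw [show (Word.equivPair i (of m • x • (Word.empty : Word M))).head =
    m * (Word.equivPair i (x • (Word.empty : Word M))).head from by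
      have := congrArg Word.Pair.head h
      convert this]
  rw [map_mul]

open Classical in
private theorem hd_of_ne (i : ι) (x : CoprodI M)
    (h : Word.fstIdx (x • (Word.empty : Word M)) ≠ some i) : hd i x = 1 := by
  classical
  unfold hd
  have h2 : Word.equivPair i (x • (Word.empty : Word M)) = ⟨1, _, h⟩ := by
    convert Word.equivPair_eq_of_fstIdx_ne h
  rw [h2, map_one]

open Classical in
/-- Right multiplication by a syllable does not change the first syllable. -/
private theorem fst_mul (j : ι) (s : M j) (t : Word M) : ∀ i, t ≠ Word.empty →
    Word.fstIdx t ≠ some i →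
    Word.fstIdx ((t.prod * of s) • (Word.empty : Word M)) ≠ some i := by
  classical
  induction t using Word.consRecOn with
  | empty => intro i h; exact absurd rfl h
  | cons k m w h1 h2 ih =>
    intro i _ hi
    rw [Word.fstIdx_cons] at hi
    have hki : k ≠ i := fun h => hi (by rw [h])
    rw [Word.prod_cons, mul_assoc, mul_smul]
    by_cases hw : w = Word.empty
    · subst hw
      rw [Word.prod_empty, one_mul]
      by_cases hkj : k = j
      · subst hkj
        rw [← mul_smul, ← map_mul]
        by_cases hms : m * s = 1
        · rw [hms, map_one, one_smul]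
          exact emp_ne i
        · have e : (of (m * s) : CoprodI M) • (Word.empty : Word M) =
              Word.cons (m * s) Word.empty (emp_ne k) hms :=
            Word.cons_eq_smul.symm
          rw [e, Word.fstIdx_cons]
          exact hi
      · by_cases hs : s = 1
        · rw [hs, map_one, one_smul]
          have e : (of m : CoprodI M) • (Word.empty : Word M) =
              Word.cons m Word.empty (emp_ne k) h2 :=
            Word.cons_eq_smul.symm
          rw [e, Word.fstIdx_cons]
          exact hi
        · have e1 : (of s : CoprodI M) • (Word.empty : Word M) =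
              Word.cons s Word.empty (emp_ne j) hs :=
            Word.cons_eq_smul.symm
          have e2 : Word.fstIdx (Word.cons s Word.empty (emp_ne j) hs : Word M) ≠ some k := by
            rw [Word.fstIdx_cons]
            intro h
            exact hkj (Option.some.inj h).symm
          rw [e1]
          have e : (of m : CoprodI M) • (Word.cons s Word.empty (emp_ne j) hs : Word M) =
              Word.cons m (Word.cons s Word.empty (emp_ne j) hs) e2 h2 :=
            Word.cons_eq_smul.symm
          rw [e, Word.fstIdx_cons]
          exact hi
    · have e2 := ih k hw h1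
      have e : (of m : CoprodI M) • ((w.prod * of s) • (Word.empty : Word M)) =
          Word.cons m ((w.prod * of s) • (Word.empty : Word M)) e2 h2 :=
        Word.cons_eq_smul.symm
      rw [e, Word.fstIdx_cons]
      exact hi

/-- Decomposition of an element. -/
private theorem exists_dec (i : ι) (x : CoprodI M) : ∃ (m : M i) (t : Word M),
    Word.fstIdx t ≠ some i ∧ x = of m * t.prod := by
  classical
  refine ⟨(Word.equivPair i (x • (Word.empty : Word M))).head,
    (Word.equivPair i (x • (Word.empty : Word M))).tail,
    (Word.equivPair i (x • (Word.empty : Word M))).fstIdx_ne, ?_⟩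
  have h := Word.equivPair_head_smul_equivPair_tail (i := i) (x • (Word.empty : Word M))
  have h2 := congrArg Word.prod h
  rw [Word.prod_smul, Word.prod_smul, Word.prod_empty, mul_one] at h2
  exact h2.symm

private theorem hd_change (i : ι) (j : ι) (s : M j) (x : CoprodI M)
    (h : hd i (x * of s) ≠ hd i x) : x ∈ (of : M i →* CoprodI M).range := by
  classical
  obtain ⟨m, t, ht, rfl⟩ := exists_dec i x
  by_cases ht0 : t = Word.empty
  · subst ht0
    rw [Word.prod_empty, mul_one]
    exact ⟨m, rfl⟩
  · exfalso
    apply h
    rw [mul_assoc, hd_eqv, hd_eqv]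
    rw [hd_of_ne i _ (fst_mul j s t i ht0 ht), hd_of_ne i t.prod (by
      rw [prod_smul_empty]; exact ht)]

/-- The first syllable is an almost locally constant retraction. -/
theorem alc_hd (i : ι) : Alc (of : M i →* CoprodI M).range (hd (M := M) i) where
  mem := hd_mem i
  eqv := by
    rintro _ ⟨m, rfl⟩ x
    exact hd_eqv i m x
  fin := by
    classical
    intro g
    induction g using CoprodI.induction_on with
    | one => exact ⟨∅, fun x hx => absurd (by rw [mul_one]) hx⟩
    | of j s =>
      refine ⟨{1}, fun x hx => ?_⟩
      exact ⟨x, hd_change i j s x hx, 1, by simp, by rw [mul_one]⟩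
    | mul a b iha ihb =>
      obtain ⟨Fa, hFa⟩ := iha
      obtain ⟨Fb, hFb⟩ := ihb
      refine ⟨Fa ∪ Fb.image (fun f => f * a⁻¹), fun x hx => ?_⟩
      by_cases hc : hd i (x * a) = hd i x
      · have h2 : hd i (x * a * b) ≠ hd i (x * a) := by
          rw [hc, mul_assoc]
          exact hx
        obtain ⟨h, hh, f, hf, e⟩ := hFb _ h2
        refine ⟨h, hh, f * a⁻¹, ?_, ?_⟩
        · rw [Finset.mem_union]
          right
          exact Finset.mem_image_of_mem _ hf
        · rw [← mul_assoc, ← e]
          group
      · obtain ⟨h, hh, f, hf, e⟩ := hFa _ hc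
        exact ⟨h, hh, f, Finset.mem_union_left _ hf, e⟩

theorem hd_one (i : ι) : hd i (1 : CoprodI M) = 1 := by
  apply hd_of_ne
  rw [one_smul]
  exact emp_ne i

theorem hd_self (i : ι) (m : M i) : hd i (of m : CoprodI M) = of m := by
  have h := hd_eqv i m (1 : CoprodI M)
  rw [mul_one, hd_one, mul_one] at h
  exact h

end

end Pool.Agent.VH
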