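import Pool.Agent.VS.Fin
/-!
# Coarse Smith theory for abstract length functions: definitions
-/
namespace Pool.Agent.VH
open Pool.Agent.VS (FCh fbd fmap fcone On)

/-- A length function on a group such that coarse intervals can be filled in all dimensions (with
constants that depend only on the number of points and on the scale). -/
structure LN (G : Type) [Group G] where
  l : G → ℕ
  l_one : l 1 = 0
  l_mul : ∀ g h, l (g * h) ≤ l g + l h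
  exists_inv : ∃ κ : ℕ, ∀ g, l g⁻¹ ≤ κ * l g
  finite_ball : ∀ n, {g | l g ≤ n}.Finite
  ifill : ∀ M R : ℕ, ∃ R' C : ℕ, ∀ (a b : G) (L : ℕ), l (a⁻¹ * b) ≤ L → ∀ k ≤ M,
    ∀ c ∈ On (fun σ : Finset G => σ.card = k ∧ (∀ x ∈ σ, ∀ y ∈ σ, l (x⁻¹ * y) ≤ R) ∧
      ∀ y ∈ σ, l (a⁻¹ * y) + l (y⁻¹ * b) ≤ L), fbd c = 0 →
      ∃ e ∈ On (fun σ : Finset G => σ.card = k + 1 ∧ (∀ x ∈ σ, ∀ y ∈ σ, l (x⁻¹ * y) ≤ R') ∧
        ∀ y ∈ σ, l (a⁻¹ * y) + l (y⁻¹ * b) ≤ L + C), fbd e = c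
  rfill : ∀ M R : ℕ, ∃ R' : ℕ, ∀ R'' : ℕ, ∃ B : ℕ, ∀ (P : G → Prop), ∀ k ≤ M,
    ∀ e ∈ On (fun σ : Finset G => σ.card = k + 1 ∧ (∀ x ∈ σ, ∀ y ∈ σ, l (x⁻¹ * y) ≤ R'') ∧
      ∀ x ∈ σ, P x), fbd e ∈ On (fun σ : Finset G => ∀ x ∈ σ, ∀ y ∈ σ, l (x⁻¹ * y) ≤ R) →
      ∃ e' ∈ On (fun σ : Finset G => σ.card = k + 1 ∧ (∀ x ∈ σ, ∀ y ∈ σ, l (x⁻¹ * y) ≤ R') ∧
        ∀ y ∈ σ, ∃ x, P x ∧ l (x⁻¹ * y) ≤ B ∧ l (y⁻¹ * x) ≤ B), fbd e' = fbd e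
  tfill : ∀ M R : ℕ, ∃ R' : ℕ, ∀ k ≤ M,
    ∀ c ∈ On (fun σ : Finset G => σ.card = k ∧ ∀ x ∈ σ, ∀ y ∈ σ, l (x⁻¹ * y) ≤ R), fbd c = 0 →
      ∃ e ∈ On (fun σ : Finset G => σ.card = k + 1 ∧ ∀ x ∈ σ, ∀ y ∈ σ, l (x⁻¹ * y) ≤ R'),
        fbd e = c

variable {G : Type} [Group G]

/-- A set of points at mutual distance at most `R`. -/
def Sm (F : LN G) (R : ℕ) (σ : Finset G) : Prop := ∀ x ∈ σ, ∀ y ∈ σ, F.l (x⁻¹ * y) ≤ R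

/-- A set of pairs of points, small in both coordinates. -/
def Sm2 (F : LN G) (R : ℕ) (τ : Finset (G × G)) : Prop :=
  ∀ p ∈ τ, ∀ q ∈ τ, F.l (p.1⁻¹ * q.1) ≤ R ∧ F.l (p.2⁻¹ * q.2) ≤ R

/-- The points moved by at most `L` by `w`. -/
def InY (F : LN G) (w : G) (L : ℕ) (x : G) : Prop := F.l (x⁻¹ * w * x) ≤ L

/-- The pairs `(x, y)` on a twisted loop of length at most `L`. -/
def InX (F : LN G) (w : G) (L : ℕ) (p : G × G) : Prop :=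
  F.l (p.1⁻¹ * w * p.2) + F.l (p.2⁻¹ * w * p.1) ≤ L

/-- The interval from `a` to `b`, with slack. -/
def InI (F : LN G) (a b : G) (L : ℕ) (y : G) : Prop := F.l (a⁻¹ * y) + F.l (y⁻¹ * b) ≤ L

/-- `L` is larger than the translation number of `w`. -/
def Tau (F : LN G) (w : G) (L : ℕ) : Prop :=
  ∀ B : ℕ, ∃ k : ℕ, F.l (w ^ (2 ^ k)) + B ≤ 2 ^ k * L

/-- Filling of cycles with `k` points per simplex of displacement sets. -/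
def Fil (F : LN G) (k R R' C : ℕ) : Prop :=
  ∀ (w : G) (L : ℕ), Tau F w L →
    ∀ c ∈ On (fun σ : Finset G => σ.card = k ∧ Sm F R σ ∧ ∀ x ∈ σ, InY F w L x), fbd c = 0 →
      ∃ e ∈ On (fun σ : Finset G => σ.card = k + 1 ∧ Sm F R' σ ∧ ∀ x ∈ σ, InY F w (L + C) x),
        fbd e = c

/-- Finite asymptotic dimension: at every scale `R` there is a map `φ` of bounded displacement which
takes at most `D + 1` values on every set of diameter at most `R`. -/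
def Asd (F : LN G) (D : ℕ) : Prop :=
  ∀ R : ℕ, ∃ (B : ℕ) (φ : G → G), (∀ x, F.l (x⁻¹ * φ x) ≤ B ∧ F.l ((φ x)⁻¹ * x) ≤ B) ∧
    ∀ σ : Finset G, Sm F R σ → (φ '' (σ : Set G)).ncard ≤ D + 1

theorem int_fill (F : LN G) (M R : ℕ) : ∃ R' C : ℕ, ∀ (a b : G) (L : ℕ),
    F.l (a⁻¹ * b) ≤ L → ∀ k ≤ M,
    ∀ c ∈ On (fun σ : Finset G => σ.card = k ∧ Sm F R σ ∧ ∀ y ∈ σ, InI F a b L y), fbd c = 0 →
      ∃ e ∈ On (fun σ : Finset G => σ.card = k + 1 ∧ Sm F R' σ ∧ ∀ y ∈ σ, InI F a b (L + C) y),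
        fbd e = c := F.ifill M R

theorem ref_fill (F : LN G) (M R : ℕ) : ∃ R' : ℕ, ∀ R'' : ℕ, ∃ B : ℕ,
    ∀ (P : G → Prop), ∀ k ≤ M,
    ∀ e ∈ On (fun σ : Finset G => σ.card = k + 1 ∧ Sm F R'' σ ∧ ∀ x ∈ σ, P x),
      fbd e ∈ On (Sm F R) →
      ∃ e' ∈ On (fun σ : Finset G => σ.card = k + 1 ∧ Sm F R' σ ∧
        ∀ y ∈ σ, ∃ x, P x ∧ F.l (x⁻¹ * y) ≤ B ∧ F.l (y⁻¹ * x) ≤ B), fbd e' = fbd e := F.rfill M R

theorem tot_fill (F : LN G) (M R : ℕ) : ∃ R' : ℕ, ∀ k ≤ M,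
    ∀ c ∈ On (fun σ : Finset G => σ.card = k ∧ Sm F R σ), fbd c = 0 →
      ∃ e ∈ On (fun σ : Finset G => σ.card = k + 1 ∧ Sm F R' σ), fbd e = c := F.tfill M R

end Pool.Agent.VH
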