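import Pool.Agent.VH.FC4
import Pool.Agent.VH.Commens
/-!
# Groups with a commensurated infinite cyclic subgroup and virtually free quotients
-/
namespace Pool.Agent.VH
open Subgroup Pool.Agent.SLX

theorem zpowers_rank {G : Type} [Group G] (b : G) (K : Subgroup G) (hK : K ≤ zpowers b) :
    ∃ T : Finset G, T.card ≤ 1 ∧ Subgroup.closure (T : Set G) = K := by
  classical
  have h1 : IsCyclic (zpowers b) := inferInstance
  have h2 : IsCyclic (K.subgroupOf (zpowers b)) := inferInstance
  obtain ⟨c, hc⟩ := h2.exists_generator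
  refine ⟨{((c : zpowers b) : G)}, by simp, ?_⟩
  rw [Finset.coe_singleton, ← zpowers_eq_closure]
  apply le_antisymm
  · rw [zpowers_le]
    exact c.2
  · intro x hx
    obtain ⟨k, hk⟩ := mem_zpowers_iff.1 (hc ⟨⟨x, hK hx⟩, hx⟩)
    refine mem_zpowers_iff.2 ⟨k, ?_⟩
    have h3 := congrArg (fun y : K.subgroupOf (zpowers b) => ((y : zpowers b) : G)) hk
    exact h3

/-- Groups with a commensurated infinite cyclic subgroup such that the quotients by its normal
subgroups are virtually direct products of free groups. -/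
theorem fcl_cyc_automatic {G : Type} [Group G] [Group.FG G] (h : FCl G) {a : G} (ha : Commens a)
    (hq : ∀ M : ℕ, 0 < M → ∀ [(zpowers (a ^ M)).Normal],
      ∃ (κ : Type) (_ : Finite κ) (X : κ → Type) (_ : ∀ i, Finite (X i))
        (Q0 : Subgroup (G ⧸ zpowers (a ^ M))), Q0.FiniteIndex ∧
        Nonempty (Q0 ≃* ∀ i, FreeGroup (X i))) : SLA.Automatic G := by
  obtain ⟨M, hM, hn⟩ := fcl_commens h ha
  obtain ⟨κ, hκ, X, hX, Q0, hQ, ⟨e⟩⟩ := hq M hM
  have hs : Group.IsSolvable (zpowers (a ^ M)) :=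
    Group.isSolvable_of_comm (fun x y => IsMulCommutative.is_comm.comm x y)
  exact fcl_vprod_automatic h (zpowers (a ^ M)) (zpowers (a ^ M)) le_rfl
    (by rw [relIndex_self]; exact one_ne_zero) hs 1
    (fun K hK _ => zpowers_rank (a ^ M) K hK) X Q0 e

end Pool.Agent.VH
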