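import Pool.Agent.VH.Final
/-!
# Free factors
-/
namespace Pool.Agent.VH
open Pool.Agent.SLX

/-- Transfer along an isomorphism. -/
theorem vab_transfer {G H : Type} [Group G] [Group H] (e : G ≃* H)
    (h : ∃ B : Subgroup H, B.FiniteIndex ∧ ∀ a ∈ B, ∀ b ∈ B, a * b = b * a) :
    ∃ B : Subgroup G, B.FiniteIndex ∧ ∀ a ∈ B, ∀ b ∈ B, a * b = b * a := by
  obtain ⟨B, hB, hc⟩ := h
  refine ⟨B.comap e.toMonoidHom, ?_, ?_⟩
  · refine ⟨?_⟩
    rw [Subgroup.index_comap_of_surjective B e.surjective]
    exact hB.index_ne_zero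
  · intro a ha b hb
    apply e.injective
    rw [map_mul, map_mul]
    exact hc _ ha _ hb

theorem fg_map {G H : Type} [Group G] [Group H] (e : G →* H) (K : Subgroup G) (hK : K.FG) :
    (K.map e).FG := by
  rw [Subgroup.fg_iff] at hK ⊢
  obtain ⟨S, h1, h2⟩ := hK
  exact ⟨e '' S, by rw [← h1, MonoidHom.map_closure], h2.image _⟩

/-- A virtually polycyclic free factor of a group with a finite complete ShortLex system is
virtually abelian. -/
theorem factor_poly {ι : Type} {M : ι → Type} [∀ i, Group (M i)]
    (h : HasSystem (Monoid.CoprodI M)) (i : ι) (hfg : ∀ K : Subgroup (M i), K.FG)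
    (S : Subgroup (M i)) [hS : S.FiniteIndex] [Group.IsSolvable S] :
    ∃ B : Subgroup (M i), B.FiniteIndex ∧ ∀ a ∈ B, ∀ b ∈ B, a * b = b * a := by
  obtain ⟨F⟩ := exists_ln_factor h i
  let e : M i ≃* (Monoid.CoprodI.of : M i →* Monoid.CoprodI M).range :=
    MonoidHom.ofInjective (Monoid.CoprodI.of_injective i)
  have h1 : ∀ K : Subgroup (Monoid.CoprodI.of : M i →* Monoid.CoprodI M).range, K.FG := by
    intro K
    have h2 := fg_map e.toMonoidHom (K.comap e.toMonoidHom) (hfg _)
    have h3 : (K.comap e.toMonoidHom).map e.toMonoidHom = K :=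
      Subgroup.map_comap_eq_self_of_surjective e.surjective K
    rwa [h3] at h2
  have h3 : (S.map e.toMonoidHom).FiniteIndex := by
    refine ⟨?_⟩
    have h4 : (S.map e.toMonoidHom).index = S.index :=
      Subgroup.index_map_of_bijective e.bijective S
    rw [h4]
    exact hS.index_ne_zero
  have h5 : Group.IsSolvable (S.map e.toMonoidHom) :=
    Group.isSolvable_of_surjective
      (f := (S.equivMapOfInjective e.toMonoidHom e.injective).toMonoidHom)
      (S.equivMapOfInjective e.toMonoidHom e.injective).surjective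
  exact vab_transfer e (ln_poly F h1 (S.map e.toMonoidHom))

/-- A free factor of finite asymptotic dimension: centralisers of elements. -/
theorem factor_cent {ι : Type} {M : ι → Type} [∀ i, Group (M i)]
    (h : HasSystem (Monoid.CoprodI M)) (i : ι) {D : ℕ} (hD : VNP.AsdimLE (M i) D) (w : M i) :
    (Subgroup.centralizer ({w} : Set (M i))).FG := by
  obtain ⟨F⟩ := exists_ln_factor h i
  let e : M i ≃* (Monoid.CoprodI.of : M i →* Monoid.CoprodI M).range :=
    MonoidHom.ofInjective (Monoid.CoprodI.of_injective i)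
  have h1 : VNP.AsdimLE (Monoid.CoprodI.of : M i →* Monoid.CoprodI M).range D :=
    VNP.asdimLE_of_injective e.symm.toMonoidHom e.symm.injective hD
  have h2 := fg_map e.symm.toMonoidHom _ (ln_cent F h1 (e w))
  have h3 : (Subgroup.centralizer ({w} : Set (M i))) =
      (Subgroup.centralizer ({e w} : Set (Monoid.CoprodI.of : M i →* Monoid.CoprodI M).range)).map
        e.symm.toMonoidHom := by
    ext x
    rw [Subgroup.mem_map]
    constructor
    · intro hx
      refine ⟨e x, ?_, e.symm_apply_apply x⟩
      rw [Subgroup.mem_centralizer_singleton_iff] at hx ⊢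
      rw [← map_mul, ← map_mul, hx]
    · rintro ⟨y, hy, rfl⟩
      rw [Subgroup.mem_centralizer_singleton_iff] at hy ⊢
      apply e.injective
      show e (e.symm y * w) = e (w * e.symm y)
      rw [map_mul, map_mul, e.apply_symm_apply]
      exact hy
  rw [h3]
  exact h2

end Pool.Agent.VH
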