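import Pool.Agent.VH.Defs
import Pool.Agent.VS.Fill
/-!
# The length function of a finite complete ShortLex system
-/
namespace Pool.Agent.VH
open Pool.Agent.SLX Pool.Agent.VN

theorem exists_of_nf {A G : Type} [Group G] {π : A → G} [Finite A] (F : NF A G π) :
    ∃ F' : LN G, ∀ g, F'.l g = F.l g :=
  ⟨{ l := F.l
     l_one := F.l_one
     l_mul := F.l_mul
     exists_inv := F.exists_inv
     finite_ball := F.finite_ball
     ifill := VS.int_fill F
     rfill := VS.ref_fill F
     tfill := VS.tot_fill F }, fun _ => rfl⟩

end Pool.Agent.VH
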