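import Pool.Agent.VH.Defs
/-!
# Coarse retracts
-/
namespace Pool.Agent.VH
open Pool.Agent.VS

variable {G : Type} [Group G]

/-- A coarse retract inherits the fillings. -/
theorem exists_ret (F : LN G) (H : Subgroup G) (ρ : G → G) (C : ℕ) (h1 : ∀ x, ρ x ∈ H)
    (h2 : ∀ h ∈ H, ρ h = h)
    (h3 : ∀ x y, F.l ((ρ x)⁻¹ * ρ y) ≤ F.l (x⁻¹ * y) + C) :
    ∃ F' : LN H, ∀ h : H, F'.l h = F.l (h : G) := by
  classical
  let r : G → H := fun x => ⟨ρ x, h1 x⟩
  let j : H → G := fun h => (h : G)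
  have hrj : ∀ c : FCh H, fmap r (fmap j c) = c := by
    intro c
    rw [fmap_fmap]
    have e : (fun x : H => r (j x)) = fun x => x := by
      funext x
      exact Subtype.ext (h2 _ x.2)
    rw [e, fmap_id]
  have hjl : ∀ x y : H, F.l (((x⁻¹ * y : H)) : G) = F.l ((x : G)⁻¹ * (y : G)) := fun _ _ => rfl
  have hr1 : ∀ x y : G, F.l (((r x)⁻¹ * r y : H) : G) ≤ F.l (x⁻¹ * y) + C := fun x y => h3 x y
  have hr2 : ∀ (a : H) (y : G), F.l ((a⁻¹ * r y : H) : G) ≤ F.l ((a : G)⁻¹ * y) + C := by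
    intro a y
    have := h3 (a : G) y
    rw [h2 _ a.2] at this
    exact this
  have hr3 : ∀ (a : H) (y : G), F.l (((r y)⁻¹ * a : H) : G) ≤ F.l (y⁻¹ * (a : G)) + C := by
    intro a y
    have := h3 y (a : G)
    rw [h2 _ a.2] at this
    exact this
  refine ⟨{ l := fun h => F.l (h : G), l_one := F.l_one, l_mul := fun g h => F.l_mul _ _,
            exists_inv := ?_, finite_ball := ?_, ifill := ?_, rfill := ?_, tfill := ?_ },
    fun h => rfl⟩
  · obtain ⟨κ, hκ⟩ := F.exists_inv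
    exact ⟨κ, fun g => hκ _⟩
  · intro n
    exact Set.Finite.preimage (Subtype.coe_injective.injOn) (F.finite_ball n)
  · intro M R
    obtain ⟨R', C', hh⟩ := F.ifill M R
    refine ⟨R' + C, C' + 2 * C, ?_⟩
    intro a b L hab k hk c hc hz
    obtain ⟨e, he, hec⟩ := hh (a : G) (b : G) L hab k hk (fmap j c) (by
      refine fmap_on j ?_ hc
      rintro σ τ ⟨g1, g2, g3⟩ h4 h5
      refine ⟨by omega, ?_, ?_⟩
      · intro x hx y hy
        obtain ⟨x', hx', rfl⟩ := (h5 x).1 hx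
        obtain ⟨y', hy', rfl⟩ := (h5 y).1 hy
        exact g2 x' hx' y' hy'
      · intro y hy
        obtain ⟨y', hy', rfl⟩ := (h5 y).1 hy
        exact g3 y' hy') (by rw [fbd_fmap, hz, map_zero])
    refine ⟨fmap r e, ?_, by rw [fbd_fmap, hec, hrj]⟩
    refine fmap_on r ?_ he
    rintro σ τ ⟨g1, g2, g3⟩ h4 h5
    refine ⟨by omega, ?_, ?_⟩
    · intro x hx y hy
      obtain ⟨x', hx', rfl⟩ := (h5 x).1 hx
      obtain ⟨y', hy', rfl⟩ := (h5 y).1 hy
      have e1 := hr1 x' y'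
      have e2 := g2 x' hx' y' hy'
      omega
    · intro y hy
      obtain ⟨y', hy', rfl⟩ := (h5 y).1 hy
      have e1 := hr2 a y'
      have e2 := hr3 b y'
      have e3 := g3 y' hy'
      omega
  · intro M R
    obtain ⟨R', hh⟩ := F.rfill M R
    refine ⟨R' + C, fun R'' => ?_⟩
    obtain ⟨B, hB⟩ := hh R''
    refine ⟨B + C, ?_⟩
    intro P k hk e he hbe
    obtain ⟨e', he', hee⟩ := hB (fun g => ∃ h : H, P h ∧ (h : G) = g) k hk (fmap j e) (by
      refine fmap_on j ?_ he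
      rintro σ τ ⟨g1, g2, g3⟩ h4 h5
      refine ⟨by omega, ?_, ?_⟩
      · intro x hx y hy
        obtain ⟨x', hx', rfl⟩ := (h5 x).1 hx
        obtain ⟨y', hy', rfl⟩ := (h5 y).1 hy
        exact g2 x' hx' y' hy'
      · intro y hy
        obtain ⟨y', hy', rfl⟩ := (h5 y).1 hy
        exact ⟨y', g3 y' hy', rfl⟩) (by
      rw [fbd_fmap]
      refine fmap_on j ?_ hbe
      intro σ τ g2 h4 h5 x hx y hy
      obtain ⟨x', hx', rfl⟩ := (h5 x).1 hx
      obtain ⟨y', hy', rfl⟩ := (h5 y).1 hy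
      exact g2 x' hx' y' hy')
    refine ⟨fmap r e', ?_, by rw [fbd_fmap, hee, fbd_fmap, hrj]⟩
    refine fmap_on r ?_ he'
    rintro σ τ ⟨g1, g2, g3⟩ h4 h5
    refine ⟨by omega, ?_, ?_⟩
    · intro x hx y hy
      obtain ⟨x', hx', rfl⟩ := (h5 x).1 hx
      obtain ⟨y', hy', rfl⟩ := (h5 y).1 hy
      have e1 := hr1 x' y'
      have e2 := g2 x' hx' y' hy'
      omega
    · intro y hy
      obtain ⟨y', hy', rfl⟩ := (h5 y).1 hy
      obtain ⟨x, ⟨h, hP, rfl⟩, k1, k2⟩ := g3 y' hy'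
      have e1 := hr2 h y'
      have e2 := hr3 h y'
      exact ⟨h, hP, by omega, by omega⟩
  · intro M R
    obtain ⟨R', hh⟩ := F.tfill M R
    refine ⟨R' + C, ?_⟩
    intro k hk c hc hz
    obtain ⟨e, he, hec⟩ := hh k hk (fmap j c) (by
      refine fmap_on j ?_ hc
      rintro σ τ ⟨g1, g2⟩ h4 h5
      refine ⟨by omega, ?_⟩
      intro x hx y hy
      obtain ⟨x', hx', rfl⟩ := (h5 x).1 hx
      obtain ⟨y', hy', rfl⟩ := (h5 y).1 hy
      exact g2 x' hx' y' hy') (by rw [fbd_fmap, hz, map_zero])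
    refine ⟨fmap r e, ?_, by rw [fbd_fmap, hec, hrj]⟩
    refine fmap_on r ?_ he
    rintro σ τ ⟨g1, g2⟩ h4 h5
    refine ⟨by omega, ?_⟩
    intro x hx y hy
    obtain ⟨x', hx', rfl⟩ := (h5 x).1 hx
    obtain ⟨y', hy', rfl⟩ := (h5 y).1 hy
    have e1 := hr1 x' y'
    have e2 := g2 x' hx' y' hy'
    omega

end Pool.Agent.VH
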