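import Pool.Agent.VH.Main
import Pool.Agent.VH.OfNF
import Pool.Agent.VH.Ret
import Pool.Agent.VH.Alc
import Pool.Agent.VH.Cop
import Pool.Agent.VH.Asd
import Pool.Agent.VH.Q1
import Pool.Agent.VH.Q2
import Pool.Agent.VH.Cent
import Pool.Agent.VS.Poly
import Pool.Agent.VNP.AsExt
/-!
# Coarse retracts of groups with a finite complete ShortLex system
-/
namespace Pool.Agent.VH
open Pool.Agent.SLX

/-- The length function of a coarse retract. -/
theorem exists_ln {A G : Type} [Finite A] [LinearOrder A] [Group G] {π : A → G}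
    {E : Set (List A × List A)} (hE : IsSystem π E) (H : Subgroup G) (hH : CoRet (Wl π) H) :
    ∃ F : LN H, ∀ (h : H) (n : ℕ), F.l h ≤ n ↔ Wl π n (h : G) := by
  obtain ⟨F⟩ := VN.exists_NF hE
  have hF : ∀ (g : G) (n : ℕ), F.l g ≤ n ↔ Wl π n g := by
    intro g n
    constructor
    · intro h
      exact ⟨F.nf g, h, F.val_nf g⟩
    · rintro ⟨w, hw, rfl⟩
      exact (F.l_val w).trans hw
  obtain ⟨F', hF'⟩ := exists_of_nf F
  obtain ⟨ρ, C, h1, h2, h3⟩ := hH
  obtain ⟨F'', hF''⟩ := exists_ret F' H ρ C h1 h2 (by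
    intro x y
    rw [hF', hF']
    exact (hF _ _).2 (h3 _ x y ((hF _ _).1 le_rfl)))
  refine ⟨F'', fun h n => ?_⟩
  rw [hF'', hF', hF]

/-- The bound of the translation number by the length of one power. -/
theorem tau_of_power {G : Type} [Group G] (F : LN G) (w : G) (m n : ℕ) (hn : 0 < n)
    (h : F.l (w ^ n) ≤ m) : Tau F w (m / n + 1) := by
  intro B
  -- `l (w ^ k) * n ≤ k * m + n * n * l w`
  have h1 : ∀ k : ℕ, n * F.l (w ^ k) ≤ k * m + n * (n * F.l w) := by
    intro k
    have e : w ^ k = (w ^ n) ^ (k / n) * w ^ (k % n) := by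
      rw [← pow_mul, ← pow_add, Nat.div_add_mod]
    have a1 : F.l (w ^ k) ≤ (k / n) * m + (k % n) * F.l w := by
      rw [e]
      refine (F.l_mul _ _).trans ?_
      have a2 := tau_aux_pow F (w ^ n) (k / n)
      have a3 := tau_aux_pow F w (k % n)
      have a4 : (k / n) * F.l (w ^ n) ≤ (k / n) * m := Nat.mul_le_mul_left _ h
      omega
    have a5 : (k % n) * F.l w ≤ n * F.l w := Nat.mul_le_mul_right _ (Nat.mod_lt _ hn).le
    have a6 : n * (k / n) ≤ k := Nat.mul_div_le k n
    have a7 : n * (k / n) * m ≤ k * m := Nat.mul_le_mul_right _ a6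
    calc n * F.l (w ^ k) ≤ n * ((k / n) * m + n * F.l w) :=
          Nat.mul_le_mul_left _ (by omega)
      _ = n * (k / n) * m + n * (n * F.l w) := by ring
      _ ≤ k * m + n * (n * F.l w) := by omega
  set K : ℕ := n * (n * F.l w) + n * B with hK
  refine ⟨K, ?_⟩
  have h2 := h1 (2 ^ K)
  have h3 : K < 2 ^ K := Nat.lt_two_pow_self
  have h4 : m + 1 ≤ n * (m / n + 1) := by
    have := Nat.div_add_mod m n
    have := Nat.mod_lt m hn
    have : n * (m / n + 1) = n * (m / n) + n := by ring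
    omega
  have h5 : 2 ^ K * (m + 1) ≤ 2 ^ K * (n * (m / n + 1)) := Nat.mul_le_mul_left _ h4
  have h6 : n * (F.l (w ^ 2 ^ K) + B) ≤ n * (2 ^ K * (m / n + 1)) := by
    have e1 : n * (F.l (w ^ 2 ^ K) + B) = n * F.l (w ^ 2 ^ K) + n * B := by ring
    have e2 : n * (2 ^ K * (m / n + 1)) = 2 ^ K * (n * (m / n + 1)) := by ring
    have e3 : 2 ^ K * (m + 1) = 2 ^ K * m + 2 ^ K := by ring
    omega
  exact Nat.le_of_mul_le_mul_left h6 hn

/-- For a length function with fillings on a group of finite asymptotic dimension all elements have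
conjugates of length at most the translation number plus a constant. -/
theorem ln_conj {G : Type} [Group G] (F : LN G) {D : ℕ} (hD : VNP.AsdimLE G D) :
    ∃ C : ℕ, ∀ (w : G) (m n : ℕ), 0 < n → F.l (w ^ n) ≤ m →
      ∃ x : G, n * F.l (x⁻¹ * w * x) ≤ m + n * C := by
  obtain ⟨C, hC⟩ := conj_short F (asd_of_asdim F hD)
  refine ⟨C + 1, fun w m n hn h => ?_⟩
  obtain ⟨x, hx⟩ := hC w _ (tau_of_power F w m n hn h)
  refine ⟨x, ?_⟩
  have h1 : n * F.l (x⁻¹ * w * x) ≤ n * (m / n + 1 + C) := Nat.mul_le_mul_left _ hx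
  have h2 : n * (m / n + 1 + C) = n * (m / n) + n * (C + 1) := by ring
  have h3 := Nat.mul_div_le m n
  omega

/-- Centralisers of elements. -/
theorem ln_cent {G : Type} [Group G] (F : LN G) {D : ℕ} (hD : VNP.AsdimLE G D) (w : G) :
    (Subgroup.centralizer ({w} : Set G)).FG :=
  cent_fg F (fun R => fil_all F (asd_of_asdim F hD) 1 R) w

/-- A virtually polycyclic group with a length function with fillings is virtually abelian. -/
theorem ln_poly {G : Type} [Group G] (F : LN G) (hfg : ∀ K : Subgroup G, K.FG) (S : Subgroup G)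
    [S.FiniteIndex] [Group.IsSolvable S] :
    ∃ B : Subgroup G, B.FiniteIndex ∧ ∀ a ∈ B, ∀ b ∈ B, a * b = b * a := by
  obtain ⟨D, hD⟩ := VNP.asdimLE_virt S hfg
  have hB := conj_short F (asd_of_asdim F hD)
  refine VS.poly_vab G ?_ ?_ hfg S
  · intro a b z hz ha hb hfc
    exact fc_torsion F hB a b z hz ha hb hfc
  · intro B hB1 hB2 hB3
    exact abel_normal F hB B hB2 hB3

section
variable {A G : Type} [Finite A] [LinearOrder A] [Group G] {π : A → G}
    {E : Set (List A × List A)}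

/-- Conjugates in a coarse retract `H` of finite asymptotic dimension: for some constant `C` all
`w` in `H` and all `n > 0`, if `w ^ n` has length at most `m` then some `H`-conjugate of `w` has
length at most `m / n + C`. -/
theorem ret_conj (hE : IsSystem π E) (H : Subgroup G) (hH : CoRet (Wl π) H) {D : ℕ}
    (hD : VNP.AsdimLE H D) :
    ∃ C : ℕ, ∀ w ∈ H, ∀ m n : ℕ, 0 < n → Wl π m (w ^ n) →
      ∃ x ∈ H, ∃ k : ℕ, Wl π k (x⁻¹ * w * x) ∧ n * k ≤ m + n * C := by
  obtain ⟨F, hF⟩ := exists_ln hE H hH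
  obtain ⟨C, hC⟩ := ln_conj F hD
  refine ⟨C, fun w hw m n hn h => ?_⟩
  obtain ⟨x, hx⟩ := hC ⟨w, hw⟩ m n hn ((hF _ _).2 h)
  exact ⟨x, x.2, F.l (x⁻¹ * ⟨w, hw⟩ * x), (hF _ _).1 le_rfl, hx⟩

/-- Centralisers in a coarse retract of finite asymptotic dimension. -/
theorem ret_cent (hE : IsSystem π E) (H : Subgroup G) (hH : CoRet (Wl π) H) {D : ℕ}
    (hD : VNP.AsdimLE H D) (w : H) : (Subgroup.centralizer ({w} : Set H)).FG := by
  obtain ⟨F, _⟩ := exists_ln hE H hH
  exact ln_cent F hD w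

/-- Virtually polycyclic coarse retracts are virtually abelian. -/
theorem ret_poly (hE : IsSystem π E) (H : Subgroup G) (hH : CoRet (Wl π) H)
    (hfg : ∀ K : Subgroup H, K.FG) (S : Subgroup H) [S.FiniteIndex] [Group.IsSolvable S] :
    ∃ B : Subgroup H, B.FiniteIndex ∧ ∀ a ∈ B, ∀ b ∈ B, a * b = b * a := by
  obtain ⟨F, _⟩ := exists_ln hE H hH
  exact ln_poly F hfg S

end

/-- Almost locally constant equivariant maps that fix `H` are coarse retractions. -/
theorem coret_of_alc {A G : Type} [Finite A] [Group G] {π : A → G}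
    (hgen : ∀ g : G, ∃ w, val π w = g) {H : Subgroup G} {ρ : G → G} (h : Alc H ρ)
    (hfix : ∀ x ∈ H, ρ x = x) : CoRet (Wl π) H := by
  obtain ⟨C, hC⟩ := alc_coarse hgen h
  exact ⟨ρ, C, h.mem, hfix, hC⟩

/-- The factors of a free product are coarse retracts. -/
theorem coret_factor {ι : Type} {M : ι → Type} [∀ i, Group (M i)] {A : Type} [Finite A]
    {π : A → Monoid.CoprodI M} (hgen : ∀ g, ∃ w, val π w = g) (i : ι) :
    CoRet (Wl π) (Monoid.CoprodI.of : M i →* Monoid.CoprodI M).range := by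
  refine coret_of_alc hgen (alc_hd i) ?_
  rintro _ ⟨m, rfl⟩
  exact hd_self i m

/-- A length function with fillings on a free factor. -/
theorem exists_ln_factor {ι : Type} {M : ι → Type} [∀ i, Group (M i)]
    (h : HasSystem (Monoid.CoprodI M)) (i : ι) :
    Nonempty (LN (Monoid.CoprodI.of : M i →* Monoid.CoprodI M).range) := by
  obtain ⟨A, _, _, π, E, hE⟩ := h
  obtain ⟨F, _⟩ := exists_ln hE _ (coret_factor hE.surj i)
  exact ⟨F⟩

end Pool.Agent.VH
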