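import Pool.Agent.VH.Rank
import Pool.Agent.SLA.Main
import Pool.Agent.SLA.FreeProd3
/-!
# Free products of virtually solvable groups of finite Pruefer rank
-/
namespace Pool.Agent.VH
open Pool.Agent.SLX Pool.Agent.SLA

theorem fg_of_system {G : Type} [Group G] (h : HasSystem G) : Group.FG G := by
  obtain ⟨A, hA, hl, π, E, hE⟩ := h
  rw [Group.fg_iff]
  refine ⟨Set.range π, ?_, Set.finite_range π⟩
  rw [eq_top_iff]
  intro g _
  obtain ⟨w, hw⟩ := hE.surj g
  rw [← hw]
  apply Subgroup.list_prod_mem
  intro x hx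
  obtain ⟨a, _, rfl⟩ := List.mem_map.1 hx
  exact Subgroup.subset_closure ⟨a, rfl⟩

theorem factor_fg {ι : Type} {M : ι → Type} [∀ i, Group (M i)]
    (h : Group.FG (Monoid.CoprodI M)) (i : ι) : Group.FG (M i) := by
  classical
  have hs : Function.Surjective (Monoid.CoprodI.lift (Pi.mulSingle i (MonoidHom.id (M i)))) :=
    (Monoid.CoprodI.of_leftInverse i).surjective
  exact Group.fg_of_surjective hs

/-- A free product of finitely many virtually solvable groups of finite Pruefer rank with a finite
complete ShortLex system is ShortLex-automatic for some finite ordered generating set. -/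
theorem freeProd_rank {ι : Type} [Finite ι] (M : ι → Type) [∀ i, Group (M i)]
    (h : HasSystem (Monoid.CoprodI M))
    (hM : ∀ i, ∃ (S : Subgroup (M i)) (r : ℕ), S.FiniteIndex ∧ Group.IsSolvable S ∧
      ∀ K : Subgroup (M i), K ≤ S → K.FG → ∃ T : Finset (M i), T.card ≤ r ∧
        Subgroup.closure (T : Set (M i)) = K) :
    ShortLexAutomatic (Monoid.CoprodI M) := by
  refine freeProd M fun i => ?_
  obtain ⟨S, r, hS, hs, hr⟩ := hM i
  obtain ⟨B, hB, hc⟩ := factor_rank h i S r hr
  exact SLA.main (factor_fg (fg_of_system h) i) B hB hc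

end Pool.Agent.VH
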