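import Pool.Agent.VH.Rank
import Pool.Agent.VS.FreeQuot
import Pool.Agent.SLA.VFree
/-!
# Coarse retracts: normal virtually solvable subgroups of finite Pruefer rank
-/
namespace Pool.Agent.VH
open Subgroup Pool.Agent.SLX Pool.Agent.VS

/-- Transport of a length function with fillings along an isomorphism. -/
theorem ln_equiv {G H : Type} [Group G] [Group H] (e : G ≃* H) (F : LN G) : Nonempty (LN H) := by
  classical
  let r : G → H := fun x => e x
  let j : H → G := fun h => e.symm h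
  have hrj : ∀ c : FCh H, fmap r (fmap j c) = c := by
    intro c
    rw [fmap_fmap]
    have e1 : (fun x : H => r (j x)) = fun x => x := by
      funext x
      exact e.apply_symm_apply x
    rw [e1, fmap_id]
  have hj : ∀ x y : H, e.symm (x⁻¹ * y) = (j x)⁻¹ * j y := fun x y => by
    rw [map_mul, map_inv]
  have hr1 : ∀ x y : G, e.symm ((r x)⁻¹ * r y) = x⁻¹ * y := fun x y => by
    rw [map_mul, map_inv]
    simp only [r, MulEquiv.symm_apply_apply]
  have hr2 : ∀ (a : H) (y : G), e.symm (a⁻¹ * r y) = (j a)⁻¹ * y := fun a y => by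
    rw [map_mul, map_inv]
    simp only [r, j, MulEquiv.symm_apply_apply]
  have hr3 : ∀ (a : H) (y : G), e.symm ((r y)⁻¹ * a) = y⁻¹ * j a := fun a y => by
    rw [map_mul, map_inv]
    simp only [r, j, MulEquiv.symm_apply_apply]
  refine ⟨{ l := fun h => F.l (e.symm h), l_one := by rw [map_one]; exact F.l_one,
            l_mul := fun g h => by rw [map_mul]; exact F.l_mul _ _,
            exists_inv := ?_, finite_ball := ?_, ifill := ?_, rfill := ?_, tfill := ?_ }⟩
  · obtain ⟨κ, hκ⟩ := F.exists_inv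
    exact ⟨κ, fun g => by rw [map_inv]; exact hκ _⟩
  · intro n
    exact Set.Finite.preimage (e.symm.injective.injOn) (F.finite_ball n)
  · intro M R
    obtain ⟨R', C', hh⟩ := F.ifill M R
    refine ⟨R', C', ?_⟩
    intro a b L hab k hk c hc hz
    obtain ⟨e0, he, hec⟩ := hh (j a) (j b) L (by rw [← hj]; exact hab) k hk (fmap j c) (by
      refine fmap_on j ?_ hc
      rintro σ τ ⟨g1, g2, g3⟩ h4 h5
      refine ⟨by omega, ?_, ?_⟩
      · intro x hx y hy
        obtain ⟨x', hx', rfl⟩ := (h5 x).1 hx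
        obtain ⟨y', hy', rfl⟩ := (h5 y).1 hy
        rw [← hj]
        exact g2 x' hx' y' hy'
      · intro y hy
        obtain ⟨y', hy', rfl⟩ := (h5 y).1 hy
        rw [← hj, ← hj]
        exact g3 y' hy') (by rw [fbd_fmap, hz, map_zero])
    refine ⟨fmap r e0, ?_, by rw [fbd_fmap, hec, hrj]⟩
    refine fmap_on r ?_ he
    rintro σ τ ⟨g1, g2, g3⟩ h4 h5
    refine ⟨by omega, ?_, ?_⟩
    · intro x hx y hy
      obtain ⟨x', hx', rfl⟩ := (h5 x).1 hx
      obtain ⟨y', hy', rfl⟩ := (h5 y).1 hy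
      rw [hr1]
      exact g2 x' hx' y' hy'
    · intro y hy
      obtain ⟨y', hy', rfl⟩ := (h5 y).1 hy
      rw [hr2, hr3]
      exact g3 y' hy'
  · intro M R
    obtain ⟨R', hh⟩ := F.rfill M R
    refine ⟨R', fun R'' => ?_⟩
    obtain ⟨B, hB⟩ := hh R''
    refine ⟨B, ?_⟩
    intro P k hk e0 he hbe
    obtain ⟨e', he', hee⟩ := hB (fun g => ∃ h : H, P h ∧ j h = g) k hk (fmap j e0) (by
      refine fmap_on j ?_ he
      rintro σ τ ⟨g1, g2, g3⟩ h4 h5
      refine ⟨by omega, ?_, ?_⟩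
      · intro x hx y hy
        obtain ⟨x', hx', rfl⟩ := (h5 x).1 hx
        obtain ⟨y', hy', rfl⟩ := (h5 y).1 hy
        rw [← hj]
        exact g2 x' hx' y' hy'
      · intro y hy
        obtain ⟨y', hy', rfl⟩ := (h5 y).1 hy
        exact ⟨y', g3 y' hy', rfl⟩) (by
      rw [fbd_fmap]
      refine fmap_on j ?_ hbe
      intro σ τ g2 h4 h5 x hx y hy
      obtain ⟨x', hx', rfl⟩ := (h5 x).1 hx
      obtain ⟨y', hy', rfl⟩ := (h5 y).1 hy
      rw [← hj]
      exact g2 x' hx' y' hy')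
    refine ⟨fmap r e', ?_, by rw [fbd_fmap, hee, fbd_fmap, hrj]⟩
    refine fmap_on r ?_ he'
    rintro σ τ ⟨g1, g2, g3⟩ h4 h5
    refine ⟨by omega, ?_, ?_⟩
    · intro x hx y hy
      obtain ⟨x', hx', rfl⟩ := (h5 x).1 hx
      obtain ⟨y', hy', rfl⟩ := (h5 y).1 hy
      rw [hr1]
      exact g2 x' hx' y' hy'
    · intro y hy
      obtain ⟨y', hy', rfl⟩ := (h5 y).1 hy
      obtain ⟨x, ⟨h, hP, rfl⟩, k1, k2⟩ := g3 y' hy'
      refine ⟨h, hP, ?_, ?_⟩
      · rw [hr2]
        exact k1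
      · rw [hr3]
        exact k2
  · intro M R
    obtain ⟨R', hh⟩ := F.tfill M R
    refine ⟨R', ?_⟩
    intro k hk c hc hz
    obtain ⟨e0, he, hec⟩ := hh k hk (fmap j c) (by
      refine fmap_on j ?_ hc
      rintro σ τ ⟨g1, g2⟩ h4 h5
      refine ⟨by omega, ?_⟩
      intro x hx y hy
      obtain ⟨x', hx', rfl⟩ := (h5 x).1 hx
      obtain ⟨y', hy', rfl⟩ := (h5 y).1 hy
      rw [← hj]
      exact g2 x' hx' y' hy') (by rw [fbd_fmap, hz, map_zero])
    refine ⟨fmap r e0, ?_, by rw [fbd_fmap, hec, hrj]⟩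
    refine fmap_on r ?_ he
    rintro σ τ ⟨g1, g2⟩ h4 h5
    refine ⟨by omega, ?_⟩
    intro x hx y hy
    obtain ⟨x', hx', rfl⟩ := (h5 x).1 hx
    obtain ⟨y', hy', rfl⟩ := (h5 y).1 hy
    rw [hr1]
    exact g2 x' hx' y' hy'

/-- A length function with fillings on a free factor. -/
theorem ln_factor {ι : Type} {M : ι → Type} [∀ i, Group (M i)]
    (h : HasSystem (Monoid.CoprodI M)) (i : ι) : Nonempty (LN (M i)) := by
  obtain ⟨F⟩ := exists_ln_factor h i
  exact ln_equiv (MonoidHom.ofInjective (Monoid.CoprodI.of_injective i)).symm F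

/-- Normal solvable subgroups of finite Pruefer rank. -/
theorem ln_normal {G : Type} [Group G] (F : LN G) {D : ℕ} (hD : VNP.AsdimLE G D)
    (S : Subgroup G) [S.Normal] [Group.IsSolvable S] (r : ℕ)
    (hr : ∀ K : Subgroup G, K ≤ S → K.FG → ∃ T : Finset G, T.card ≤ r ∧
      Subgroup.closure (T : Set G) = K) :
    ∃ A : Subgroup G, A.Normal ∧ A ≤ S ∧ (∀ a ∈ A, ∀ b ∈ A, a * b = b * a) ∧ A.FG ∧
      A.relIndex S ≠ 0 ∧ (centralizer (A : Set G)).FiniteIndex := by
  have hfg : Group.FG G := ln_fg F hD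
  have hB := conj_short F (asd_of_asdim F hD)
  refine VS.rank_normal G S r hr ?_ ?_ ?_
  · intro B hBn hBS hBc
    exact VS.fg_of_rank F.l F.l_one F.l_mul (classes_finite F hB) B hBc r
      (fun K hK => hr K (hK.trans hBS))
  · intro B hBn hBfg hBc
    exact abel_normal F hB B hBfg hBc
  · intro x y z hz hx hy hfc
    refine isOfFinOrder_iff_pow_eq_one.2 (fc_torsion F hB x⁻¹ y⁻¹ z ?_ ?_ ?_ hfc)
    · rw [hz, inv_inv, inv_inv]
    · exact ((show Commute x z from hx).inv_left).eq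
    · exact ((show Commute y z from hy).inv_left).eq

/-- Normal virtually solvable subgroups of finite Pruefer rank. -/
theorem ln_virt_normal {G : Type} [Group G] (F : LN G) (N : Subgroup G) [N.Normal]
    {D : ℕ} (hQ : VNP.AsdimLE (G ⧸ N) D) (S : Subgroup G) (hSN : S ≤ N)
    (hSfi : S.relIndex N ≠ 0) [hSs : Group.IsSolvable S] (r : ℕ)
    (hr : ∀ K : Subgroup G, K ≤ S → K.FG → ∃ T : Finset G, T.card ≤ r ∧
      Subgroup.closure (T : Set G) = K) :
    ∃ A : Subgroup G, A.Normal ∧ A ≤ N ∧ A.relIndex N ≠ 0 ∧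
      (∀ a ∈ A, ∀ b ∈ A, a * b = b * a) ∧ A.FG ∧ (centralizer (A : Set G)).FiniteIndex := by
  classical
  have hS' : (S.subgroupOf N).FiniteIndex := ⟨hSfi⟩
  have hSs' : Group.IsSolvable (S.subgroupOf N) :=
    Group.isSolvable_of_isSolvable_injective
      (f := (subgroupOfEquivOfLe hSN).toMonoidHom) (subgroupOfEquivOfLe hSN).injective
  obtain ⟨R0, hRc, hRfi, hRs⟩ := VS.exists_radical N (S.subgroupOf N) hSs'
  set R : Subgroup G := R0.map N.subtype with hR
  have hRn : R.Normal := inferInstance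
  have hRN : R ≤ N := map_subtype_le R0
  have hRR : R.subgroupOf N = R0 := by
    rw [hR, subgroupOf, comap_map_eq_self_of_injective N.subtype_injective]
  have hRs' : Group.IsSolvable R :=
    Group.isSolvable_of_surjective (f := N.subtype.subgroupMap R0)
      (N.subtype.subgroupMap_surjective R0)
  have hRfi' : R.relIndex N ≠ 0 := by
    have : R.relIndex N = R0.index := by
      rw [relIndex, hRR]
    rw [this]
    exact hRfi.index_ne_zero
  -- the rank of `R`
  have hrR : ∀ K : Subgroup G, K ≤ R → K.FG → ∃ T : Finset G, T.card ≤ r + S.relIndex N ∧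
      Subgroup.closure (T : Set G) = K := by
    intro K hKR hKfg
    have hKN : K ≤ N := hKR.trans hRN
    have h1 : (S ⊓ K).relIndex K ≠ 0 := by
      rw [inf_relIndex_right]
      exact fun h0 => hSfi (relIndex_eq_zero_of_le_right hKN h0)
    have h2 : (S ⊓ K).FG := by
      have h3 : Group.FG K := (Group.fg_iff_subgroup_fg K).2 hKfg
      have h4 : ((S ⊓ K).subgroupOf K).FiniteIndex := ⟨h1⟩
      have h5 : Group.FG ((S ⊓ K).subgroupOf K) := inferInstance
      have h6 : ((S ⊓ K).subgroupOf K).FG := (Group.fg_iff_subgroup_fg _).1 h5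
      have h7 : (((S ⊓ K).subgroupOf K).map K.subtype).FG := by
        obtain ⟨T0, hT0⟩ := h6
        exact ⟨T0.image K.subtype, by rw [Finset.coe_image, ← MonoidHom.map_closure, hT0]⟩
      rwa [subgroupOf_map_subtype, inf_assoc, inf_idem] at h7
    obtain ⟨T, hT, hTK⟩ := hr (S ⊓ K) inf_le_left h2
    obtain ⟨T', hT', hT'K⟩ := VS.gen_of_fi (S ⊓ K) K inf_le_right h1 T hTK
    refine ⟨T', hT'.trans (Nat.add_le_add hT ?_), hT'K⟩
    rw [inf_relIndex_right]
    exact relIndex_le_of_le_right hKN hSfi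
  -- asymptotic dimension
  obtain ⟨D1, hD1⟩ := VNP.asdimLE_solvRank _ (VNP.rank_subgroup R _ hrR)
  have hD2 : VNP.AsdimLE (R.subgroupOf N) D1 :=
    VNP.asdimLE_of_injective (subgroupOfEquivOfLe hRN).toMonoidHom
      (subgroupOfEquivOfLe hRN).injective hD1
  have hRfi'' : (R.subgroupOf N).FiniteIndex := ⟨hRfi'⟩
  obtain ⟨D3, hD3⟩ := VNP.asdimLE_of_fi (R.subgroupOf N) hD2
  have hDG := VNP.asdimLE_ext N hD3 hQ
  obtain ⟨A, hAn, hAR, hAc, hAfg, hAfi, hAC⟩ := ln_normal F hDG R _ hrR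
  have hAN : A.relIndex N ≠ 0 := by
    rw [← relIndex_mul_relIndex A R N hAR hRN]
    exact mul_ne_zero hAfi hRfi'
  exact ⟨A, hAn, hAR.trans hRN, hAN, hAc, hAfg, hAC⟩

/-- Virtually solvable of finite Pruefer rank by virtually free. -/
theorem ln_vfree {G : Type} [Group G] (F : LN G) (N : Subgroup G) [N.Normal]
    (S : Subgroup G) (hSN : S ≤ N) (hSfi : S.relIndex N ≠ 0) [hSs : Group.IsSolvable S] (r : ℕ)
    (hr : ∀ K : Subgroup G, K ≤ S → K.FG → ∃ T : Finset G, T.card ≤ r ∧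
      Subgroup.closure (T : Set G) = K)
    (X : Type) [Finite X] (Q0 : Subgroup (G ⧸ N)) [Q0.FiniteIndex] (e : Q0 ≃* FreeGroup X) :
    ∃ (m n : ℕ) (H : Subgroup G), H.FiniteIndex ∧
      Nonempty (H ≃* (Fin m → Multiplicative ℤ) × FreeGroup (Fin n)) := by
  obtain ⟨D, hD⟩ := VNP.asdimLE_vfree Q0 e
  obtain ⟨A, hAn, hAN, hAfi, hAc, hAfg, hAC⟩ := ln_virt_normal F N hD S hSN hSfi r hr
  obtain ⟨n, H, hH, ⟨f⟩⟩ := SLA.vfree_split N A hAN hAfi hAC X Q0 e
  have hAfg' : Group.FG A := (Group.fg_iff_subgroup_fg A).2 hAfg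
  obtain ⟨m, B, hB, ⟨f2⟩⟩ := VS.free_in_abelian A
    (fun a b => Subtype.ext (hAc a a.2 b b.2)) hAfg'
  obtain ⟨H', hH', hf⟩ := VS.prod_fi H f B f2
  exact ⟨m, n, H', hH', hf⟩

/-- Virtually solvable of finite Pruefer rank. -/
theorem ln_vfinite {G : Type} [Group G] (F : LN G) (N : Subgroup G) [N.Normal] [hN : N.FiniteIndex]
    (S : Subgroup G) (hSN : S ≤ N) (hSfi : S.relIndex N ≠ 0) [hSs : Group.IsSolvable S] (r : ℕ)
    (hr : ∀ K : Subgroup G, K ≤ S → K.FG → ∃ T : Finset G, T.card ≤ r ∧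
      Subgroup.closure (T : Set G) = K) :
    ∃ B : Subgroup G, B.FiniteIndex ∧ ∀ a ∈ B, ∀ b ∈ B, a * b = b * a := by
  have h1 : S.FiniteIndex := by
    refine ⟨?_⟩
    rw [← relIndex_mul_index hSN]
    exact mul_ne_zero hSfi hN.index_ne_zero
  exact ln_rank F S r hr

end Pool.Agent.VH
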