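import Pool.Agent.VH.Factor
import Pool.Agent.VNP.AsRank
import Pool.Agent.VS.Rank
import Pool.Agent.VS.RankVab
/-!
# Coarse retracts: virtually solvable groups of finite Pruefer rank
-/
namespace Pool.Agent.VH
open Pool.Agent.SLX

theorem ln_fg {G : Type} [Group G] (F : LN G) {D : ℕ} (hD : VNP.AsdimLE G D) : Group.FG G := by
  have h := ln_cent F hD 1
  have e : Subgroup.centralizer ({1} : Set G) = ⊤ := by
    rw [eq_top_iff]
    intro g _
    rw [Subgroup.mem_centralizer_singleton_iff, mul_one, one_mul]
  rw [e] at h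
  exact Group.fg_def.2 h

/-- A virtually solvable group of finite Pruefer rank with a length function with fillings is
virtually abelian. -/
theorem ln_rank {G : Type} [Group G] (F : LN G) (S : Subgroup G) [S.FiniteIndex]
    [Group.IsSolvable S] (r : ℕ)
    (hr : ∀ K : Subgroup G, K ≤ S → K.FG → ∃ T : Finset G, T.card ≤ r ∧
      Subgroup.closure (T : Set G) = K) :
    ∃ B : Subgroup G, B.FiniteIndex ∧ ∀ a ∈ B, ∀ b ∈ B, a * b = b * a := by
  obtain ⟨D, hD⟩ := VNP.asdimLE_virtRank S r hr
  have hfg : Group.FG G := ln_fg F hD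
  have hB := conj_short F (asd_of_asdim F hD)
  refine VS.rank_vab G S r hr ?_ ?_ ?_
  · intro B hBn hBS hBc
    exact VS.fg_of_rank F.l F.l_one F.l_mul (classes_finite F hB) B hBc r
      (fun K hK => hr K (hK.trans hBS))
  · intro B hBn hBfg hBc
    exact abel_normal F hB B hBfg hBc
  · intro x y z hz hx hy hfc
    refine isOfFinOrder_iff_pow_eq_one.2 (fc_torsion F hB x⁻¹ y⁻¹ z ?_ ?_ ?_ hfc)
    · rw [hz, inv_inv, inv_inv]
    · exact ((show Commute x z from hx).inv_left).eq
    · exact ((show Commute y z from hy).inv_left).eq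

/-- Coarse retracts that are virtually solvable of finite Pruefer rank are virtually abelian. -/
theorem ret_rank {A G : Type} [Finite A] [LinearOrder A] [Group G] {π : A → G}
    {E : Set (List A × List A)} (hE : IsSystem π E) (H : Subgroup G) (hH : CoRet (Wl π) H)
    (S : Subgroup H) [S.FiniteIndex] [Group.IsSolvable S] (r : ℕ)
    (hr : ∀ K : Subgroup H, K ≤ S → K.FG → ∃ T : Finset H, T.card ≤ r ∧
      Subgroup.closure (T : Set H) = K) :
    ∃ B : Subgroup H, B.FiniteIndex ∧ ∀ a ∈ B, ∀ b ∈ B, a * b = b * a := by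
  obtain ⟨F, _⟩ := exists_ln hE H hH
  exact ln_rank F S r hr

/-- Transfer of the rank condition along an isomorphism. -/
theorem rank_transfer {G H : Type} [Group G] [Group H] (e : G ≃* H) (S : Subgroup G) (r : ℕ)
    (hr : ∀ K : Subgroup G, K ≤ S → K.FG → ∃ T : Finset G, T.card ≤ r ∧
      Subgroup.closure (T : Set G) = K) :
    ∀ K : Subgroup H, K ≤ S.map e.toMonoidHom → K.FG → ∃ T : Finset H, T.card ≤ r ∧
      Subgroup.closure (T : Set H) = K := by
  classical
  intro K hKS hK
  have h1 : (K.map e.symm.toMonoidHom).FG := fg_map _ K hK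
  have h2 : K.map e.symm.toMonoidHom ≤ S := by
    rintro _ ⟨x, hx, rfl⟩
    obtain ⟨s, hs, hsx⟩ := hKS hx
    have h3 : e.symm x = s := by
      rw [← hsx]
      exact e.symm_apply_apply s
    show e.symm x ∈ S
    rw [h3]
    exact hs
  obtain ⟨T, hT, hTK⟩ := hr _ h2 h1
  refine ⟨T.image e, Finset.card_image_le.trans hT, ?_⟩
  rw [Finset.coe_image]
  have h4 : Subgroup.closure (e '' (T : Set G)) = (Subgroup.closure (T : Set G)).map e.toMonoidHom := by
    rw [MonoidHom.map_closure]
    rfl
  rw [h4, hTK, Subgroup.map_map]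
  ext x
  constructor
  · rintro ⟨y, hy, rfl⟩
    show e (e.symm y) ∈ K
    rw [e.apply_symm_apply]
    exact hy
  · intro hx
    exact ⟨x, hx, e.apply_symm_apply x⟩

/-- A free factor of a group with a finite complete ShortLex system which is virtually solvable of
finite Pruefer rank is virtually abelian. -/
theorem factor_rank {ι : Type} {M : ι → Type} [∀ i, Group (M i)]
    (h : HasSystem (Monoid.CoprodI M)) (i : ι)
    (S : Subgroup (M i)) [hS : S.FiniteIndex] [Group.IsSolvable S] (r : ℕ)
    (hr : ∀ K : Subgroup (M i), K ≤ S → K.FG → ∃ T : Finset (M i), T.card ≤ r ∧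
      Subgroup.closure (T : Set (M i)) = K) :
    ∃ B : Subgroup (M i), B.FiniteIndex ∧ ∀ a ∈ B, ∀ b ∈ B, a * b = b * a := by
  obtain ⟨F⟩ := exists_ln_factor h i
  let e : M i ≃* (Monoid.CoprodI.of : M i →* Monoid.CoprodI M).range :=
    MonoidHom.ofInjective (Monoid.CoprodI.of_injective i)
  have h3 : (S.map e.toMonoidHom).FiniteIndex := by
    refine ⟨?_⟩
    have h4 : (S.map e.toMonoidHom).index = S.index :=
      Subgroup.index_map_of_bijective e.bijective S
    rw [h4]
    exact hS.index_ne_zero
  have h5 : Group.IsSolvable (S.map e.toMonoidHom) :=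
    Group.isSolvable_of_surjective
      (f := (S.equivMapOfInjective e.toMonoidHom e.injective).toMonoidHom)
      (S.equivMapOfInjective e.toMonoidHom e.injective).surjective
  exact vab_transfer e (ln_rank F (S.map e.toMonoidHom) r (rank_transfer e S r hr))

end Pool.Agent.VH
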