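import Mathlib
import Pool.Agent.SLX.Defs
/-!
# Coarse retracts: definitions
-/
namespace Pool.Agent.VH
open Pool.Agent.SLX

/-- `H` is a coarse retract of `G`: up to an additive constant the map `rho` from `G` to `H`
does not increase the distances (`L n g` means that the length of `g` is at most `n`),
and it fixes all points of `H`. -/
def CoRet {G : Type} [Group G] (L : ℕ → G → Prop) (H : Subgroup G) : Prop :=
  ∃ (ρ : G → G) (C : ℕ), (∀ x, ρ x ∈ H) ∧ (∀ h ∈ H, ρ h = h) ∧
    ∀ (n : ℕ) (x y : G), L n (x⁻¹ * y) → L (n + C) ((ρ x)⁻¹ * ρ y)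

/-- The length of `g` is at most `n`. -/
def Wl {A G : Type} [Group G] (π : A → G) (n : ℕ) (g : G) : Prop :=
  ∃ w : List A, w.length ≤ n ∧ val π w = g

end Pool.Agent.VH
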