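import Pool.Agent.VH.Normal
/-!
# Coarse retractions that change only near the retract
-/
namespace Pool.Agent.VH
open Pool.Agent.SLX

/-- `rho` is a retraction of `Γ` onto `G` (embedded by `j`) that changes only near `G`: if
`rho (x g)` and `rho x` differ then `x` is near `rho x`. -/
def Str {Γ G : Type} [Group Γ] [Group G] (j : G →* Γ) (ρ : Γ → G) : Prop :=
  (∀ a, ρ (j a) = a) ∧ ∀ g : Γ, ∃ F : Set Γ, F.Finite ∧
    ∀ x, ρ (x * g) ≠ ρ x → (j (ρ x))⁻¹ * x ∈ F

open scoped Pointwise in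
theorem str_comp {Γ G H : Type} [Group Γ] [Group G] [Group H] {j : G →* Γ} {ρ : Γ → G}
    {j' : H →* G} {ρ' : G → H} (h : Str j ρ) (h' : Str j' ρ') :
    Str (j.comp j') (fun x => ρ' (ρ x)) := by
  obtain ⟨h1, h2⟩ := h
  obtain ⟨h3, h4⟩ := h'
  have hj : Function.Injective j := fun a b hab => by rw [← h1 a, ← h1 b, hab]
  refine ⟨fun a => ?_, fun g => ?_⟩
  · show ρ' (ρ (j (j' a))) = a
    rw [h1, h3]
  · obtain ⟨F1, hF1, hh1⟩ := h2 g
    obtain ⟨F2, hF2, hh2⟩ := h2 g⁻¹
    choose F3 hF3 hh3 using h4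
    set W : Set G := j ⁻¹' ((F1 * {g}) * F2⁻¹) with hW
    have hWfin : W.Finite := ((hF1.mul (Set.finite_singleton g)).mul hF2.inv).preimage hj.injOn
    refine ⟨(⋃ w ∈ W, j '' F3 w) * F1, ?_, ?_⟩
    · exact (hWfin.biUnion (fun w _ => (hF3 w).image j)).mul hF1
    · intro x hx
      have hx1 : ρ (x * g) ≠ ρ x := fun h0 => hx (by show ρ' (ρ (x * g)) = ρ' (ρ x); rw [h0])
      have e1 := hh1 x hx1
      have e2 := hh2 (x * g) (by rw [mul_inv_cancel_right]; exact hx1.symm)
      have e3 : (ρ x)⁻¹ * ρ (x * g) ∈ W := by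
        show j ((ρ x)⁻¹ * ρ (x * g)) ∈ (F1 * {g}) * F2⁻¹
        have e4 : j ((ρ x)⁻¹ * ρ (x * g)) =
            ((j (ρ x))⁻¹ * x * g) * ((j (ρ (x * g)))⁻¹ * (x * g))⁻¹ := by
          rw [map_mul, map_inv]
          group
        rw [e4]
        exact Set.mul_mem_mul (Set.mul_mem_mul e1 rfl) (Set.inv_mem_inv.2 e2)
      have e5 : (j' (ρ' (ρ x)))⁻¹ * ρ x ∈ F3 ((ρ x)⁻¹ * ρ (x * g)) := by
        apply hh3
        rw [mul_inv_cancel_left]
        exact hx
      have e6 : ((j.comp j') (ρ' (ρ x)))⁻¹ * x =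
          j ((j' (ρ' (ρ x)))⁻¹ * ρ x) * ((j (ρ x))⁻¹ * x) := by
        rw [map_mul, map_inv]
        show (j (j' (ρ' (ρ x))))⁻¹ * x = _
        group
      show ((j.comp j') (ρ' (ρ x)))⁻¹ * x ∈ _
      rw [e6]
      refine Set.mul_mem_mul ?_ e1
      exact Set.mem_biUnion e3 ⟨_, e5, rfl⟩

theorem str_equiv {Γ G : Type} [Group Γ] [Group G] (e : G ≃* Γ) :
    Str e.toMonoidHom (fun x => e.symm x) := by
  refine ⟨fun a => e.symm_apply_apply a, fun g => ⟨{1}, Set.finite_singleton _, fun x _ => ?_⟩⟩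
  show (e (e.symm x))⁻¹ * x = 1
  rw [e.apply_symm_apply, inv_mul_cancel]

/-- Retractions that change only near the retract do not increase the distances, up to an additive
constant. -/
theorem str_coarse {A Γ G : Type} [Finite A] [Group Γ] [Group G] {π : A → Γ}
    (hgen : ∀ g : Γ, ∃ w, val π w = g) {j : G →* Γ} {ρ : Γ → G} (h : Str j ρ) :
    ∃ C : ℕ, ∀ (n : ℕ) (x y : Γ), Wl π n (x⁻¹ * y) →
      Wl π (n + C) ((j (ρ x))⁻¹ * j (ρ y)) := by
  classical
  obtain ⟨_, h2⟩ := h
  have hlen : ∀ g : Γ, ∃ n, Wl π n g := by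
    intro g
    obtain ⟨w, hw⟩ := hgen g
    exact ⟨w.length, w, le_rfl, hw⟩
  choose F hF hh using h2
  choose len hl using hlen
  -- the constant
  obtain ⟨C1, hC1⟩ : ∃ C1 : ℕ, ∀ a : A, (∀ f ∈ F (π a), Wl π C1 f) ∧
      ∀ f ∈ F (π a)⁻¹, Wl π C1 f⁻¹ := by
    have hfin : (⋃ a : A, (F (π a) ∪ (F (π a)⁻¹)⁻¹)).Finite :=
      Set.finite_iUnion (fun a => (hF _).union (hF _).inv)
    obtain ⟨C1, hC1⟩ := (hfin.image len).bddAbove
    refine ⟨C1, fun a => ⟨fun f hf => ?_, fun f hf => ?_⟩⟩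
    · exact wl_mono (hC1 ⟨f, Set.mem_iUnion.2 ⟨a, Or.inl hf⟩, rfl⟩) (hl f)
    · exact wl_mono (hC1 ⟨f⁻¹, Set.mem_iUnion.2 ⟨a, Or.inr (Set.inv_mem_inv.2 hf)⟩, rfl⟩) (hl _)
  have val_cons : ∀ (a : A) (w : List A), val π (a :: w) = π a * val π w := fun _ _ => rfl
  have val_nil : val π ([] : List A) = 1 := rfl
  -- the first change
  have first : ∀ (w : List A) (x : Γ), ρ (x * val π w) ≠ ρ x → ∃ u v : List A, w = u ++ v ∧
      ρ (x * val π u) = ρ x ∧ Wl π C1 ((j (ρ x))⁻¹ * (x * val π u)) := by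
    intro w
    induction w with
    | nil =>
      intro x hx
      exact absurd (by rw [val_nil, mul_one]) hx
    | cons a w ih =>
      intro x hx
      by_cases hc : ρ (x * π a) = ρ x
      · have hx' : ρ ((x * π a) * val π w) ≠ ρ (x * π a) := by
          rw [hc, mul_assoc, ← val_cons]
          exact hx
        obtain ⟨u, v, h1, h2, h3⟩ := ih (x * π a) hx'
        refine ⟨a :: u, v, by rw [h1]; rfl, ?_, ?_⟩
        · rw [val_cons, ← mul_assoc, h2, hc]
        · rw [val_cons, ← mul_assoc x (π a), ← hc]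
          exact h3
      · refine ⟨[], a :: w, rfl, ?_, ?_⟩
        · rw [val_nil, mul_one]
        · rw [val_nil, mul_one]
          exact (hC1 a).1 _ (hh (π a) x hc)
  -- the last change
  have last : ∀ (w : List A) (x : Γ), ρ (x * val π w) ≠ ρ x → ∃ u v : List A, w = u ++ v ∧
      Wl π C1 ((x * val π u)⁻¹ * j (ρ (x * val π w))) := by
    intro w
    induction w using List.reverseRecOn with
    | nil =>
      intro x hx
      exact absurd (by rw [val_nil, mul_one]) hx
    | append_singleton w a ih =>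
      intro x hx
      have ev : val π (w ++ [a]) = val π w * π a := by
        rw [val_app, val_cons, val_nil, mul_one]
      by_cases hc : ρ (x * val π w * π a) = ρ (x * val π w)
      · have hx' : ρ (x * val π w) ≠ ρ x := by
          rw [← hc, mul_assoc, ← ev]
          exact hx
        obtain ⟨u, v, h1, h2⟩ := ih x hx'
        refine ⟨u, v ++ [a], by rw [h1, List.append_assoc], ?_⟩
        rw [ev, ← mul_assoc, hc]
        exact h2
      · refine ⟨w ++ [a], [], by rw [List.append_nil], ?_⟩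
        rw [ev, ← mul_assoc]
        have e1 := (hC1 a).2 _ (hh (π a)⁻¹ (x * val π w * π a) (by
          rw [mul_inv_cancel_right]
          exact fun h0 => hc h0.symm))
        rwa [mul_inv_rev, inv_inv] at e1
  refine ⟨2 * C1, ?_⟩
  rintro n x y ⟨w, hw, hwv⟩
  obtain rfl : y = x * val π w := by rw [hwv]; group
  by_cases hc : ρ (x * val π w) = ρ x
  · rw [hc, inv_mul_cancel]
    exact wl_mono (Nat.zero_le _) wl_one
  · obtain ⟨u, v, rfl, h2, h3⟩ := first w x hc
    have hv : ρ ((x * val π u) * val π v) ≠ ρ (x * val π u) := by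
      rw [h2, mul_assoc, ← val_app]
      exact hc
    obtain ⟨u', v', rfl, h4⟩ := last v _ hv
    have h5 : Wl π u'.length (val π u') := ⟨u', le_rfl, rfl⟩
    have h6 := wl_mul (wl_mul h3 h5) h4
    have e : (j (ρ x))⁻¹ * (x * val π u) * val π u' *
        ((x * val π u * val π u')⁻¹ * j (ρ (x * val π u * val π (u' ++ v')))) =
        (j (ρ x))⁻¹ * j (ρ (x * val π (u ++ (u' ++ v')))) := by
      rw [val_app u, ← mul_assoc x]
      group
    rw [e] at h6
    refine wl_mono ?_ h6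
    rw [List.length_append, List.length_append] at hw
    omega

/-- A retract of a group with a finite complete ShortLex system has a length function with
fillings. -/
theorem ln_of_str {Γ G : Type} [Group Γ] [Group G] (h : HasSystem Γ) {j : G →* Γ} {ρ : Γ → G}
    (hs : Str j ρ) : Nonempty (LN G) := by
  obtain ⟨A, _, _, π, E, hE⟩ := h
  have hj : Function.Injective j := fun a b hab => by rw [← hs.1 a, ← hs.1 b, hab]
  obtain ⟨C, hC⟩ := str_coarse hE.surj hs
  have hcr : CoRet (Wl π) j.range := by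
    refine ⟨fun x => j (ρ x), C, fun x => ⟨_, rfl⟩, ?_, hC⟩
    rintro _ ⟨a, rfl⟩
    show j (ρ (j a)) = j a
    rw [hs.1]
  obtain ⟨F, _⟩ := exists_ln hE _ hcr
  exact ln_equiv (MonoidHom.ofInjective hj).symm F

end Pool.Agent.VH
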